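/-
MP_18d1ca_lc: counting circuits; definitions used by all modules.
-/
import Pool.Agent.MonCyc.Label

set_option linter.all false

namespace Pool.Agent.MonCnt

open Finset Equiv MonCyc

section abstract

variable {α : Type*} [DecidableEq α] [Fintype α]

/-- reachability for two matchings -/
def Rc (m0 m : α → α) : α → α → Prop := Relation.ReflTransGen (fun a b => b = m0 a ∨ b = m a)

/-- A semi-instance: `A` are the free ports, `U i` the ports of class `i`, `m0` a fixed matching,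
`F` a family of matchings of all ports, closed under mixing of members that agree on `A`. -/
structure SI (m0 : α → α) (A : Finset α) (U : Fin 3 → Finset α) (F : Finset (α → α)) : Prop where
  disjA : ∀ i u, u ∈ U i → u ∉ A
  disj : ∀ i j u, u ∈ U i → u ∈ U j → i = j
  mat0 : IsMat (A ∪ al U) m0
  mat : ∀ m ∈ F, IsMat (A ∪ al U) m
  cls : ∀ m ∈ F, ∀ i, ∀ u ∈ U i, m u ∉ A → m u ∈ U i
  mix : ∀ f : Fin 3 → α → α, (∀ i, f i ∈ F) → (∀ i j, ∀ a ∈ A, f i a = f j a) →
    ∃ m ∈ F, (∀ i, ∀ u ∈ U i, m u = f i u) ∧ ∀ i, ∀ a ∈ A, m a = f i a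
  conn : ∀ m ∈ F, ∀ u ∈ A ∪ al U, ∀ w ∈ A ∪ al U, Rc m0 m u w

/-- class ports whose `m0`-partner is a class port of another class -/
def mx (m0 : α → α) (U : Fin 3 → Finset α) : Finset α :=
  (al U).filter (fun u => m0 u ∈ al U ∧ ∀ i, u ∈ U i → m0 u ∉ U i)

end abstract

section cycles

variable {V : Type*} [DecidableEq V]

/-- edge set of a cycle of length at least three -/
def IsCyc (S : Finset (Sym2 V)) : Prop :=
  ∃ k : ℕ, 3 ≤ k ∧ ∃ a : Fin k → V, Function.Injective a ∧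
    (S : Set (Sym2 V)) = Set.range (fun i => s(a i, a (finRotate k i)))

/-- star of a vertex -/
def st (x : V) (F : Finset (Sym2 V)) : Finset (Sym2 V) := F.filter (fun e => x ∈ e)

/-- union of three edge sets -/
def un (q : Fin 3 → Finset (Sym2 V)) : Finset (Sym2 V) := univ.biUnion q

theorem mem_un {q : Fin 3 → Finset (Sym2 V)} {e : Sym2 V} : e ∈ un q ↔ ∃ i, e ∈ q i := by
  simp [un]

theorem mem_st {x : V} {F : Finset (Sym2 V)} {e : Sym2 V} : e ∈ st x F ↔ e ∈ F ∧ x ∈ e := by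
  simp [st]

variable [Fintype V]

/-- edges of the Hamiltonian cycle of `σ` -/
def ed (σ : Perm V) : Finset (Sym2 V) := univ.image (fun u => s(u, σ u))

/-- a purified box -/
structure PBox (P : Fin 3 → Set (Finset (Sym2 V))) (T : Finset V) (p p' : V → Sym2 V) : Prop where
  cyc : ∀ q : Fin 3 → Finset (Sym2 V), (∀ i, q i ∈ P i) → IsCyc (un q)
  pure_disj : ∀ x, x ∉ T → ∀ q : Fin 3 → Finset (Sym2 V), (∀ i, q i ∈ P i) → ∀ i j, i ≠ j →
    Disjoint (st x (q i)) (st x (q j))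
  pure_card : ∀ x, x ∉ T → ∀ q : Fin 3 → Finset (Sym2 V), (∀ i, q i ∈ P i) →
    (st x (un q)).card = 2
  exc_mem : ∀ x ∈ T, x ∈ p x ∧ x ∈ p' x
  exc : ∀ x ∈ T, ∀ q : Fin 3 → Finset (Sym2 V), (∀ i, q i ∈ P i) → (st x (un q)).Nonempty →
    p x ∈ un q ∨ p' x ∈ un q

/-- the edge at an arc port: `(u, true)` is the arc leaving `u`, `(u, false)` the arc entering -/
def ae (σ : Perm V) (w : V × Bool) : Sym2 V := s(w.1, (ms σ w).1)

open Classical in
/-- a class containing the edge at an arc port -/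
noncomputable def ac (q : Fin 3 → Finset (Sym2 V)) (σ : Perm V) (w : V × Bool) : Fin 3 :=
  if h : ∃ i, ae σ w ∈ q i then h.choose else 0

/-- free ports -/
def Ap (T : Finset V) : Finset (V × Bool) := univ.filter (fun w => w.1 ∈ T)

/-- class ports -/
def Uc (c : V × Bool → Fin 3) (T : Finset V) (i : Fin 3) : Finset (V × Bool) :=
  univ.filter (fun w => w.1 ∉ T ∧ c w = i)

open Classical in
/-- the family of port matchings -/
noncomputable def Fam (P : Fin 3 → Set (Finset (Sym2 V))) (c : V × Bool → Fin 3)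
    (Q : Finset (Sym2 V)) : Finset (V × Bool → V × Bool) :=
  univ.filter (fun m => IsMat (univ : Finset (V × Bool)) m ∧ ∃ q : Fin 3 → Finset (Sym2 V),
    (∀ i, q i ∈ P i) ∧ (∀ w, s(w.1, (m w).1) ∈ q (c w)) ∧
    (∀ i, ∀ e ∈ q i, ∃ w, s(w.1, (m w).1) = e) ∧ ∀ e ∈ Q, ∃ w, s(w.1, (m w).1) = e)

theorem mem_Fam {P : Fin 3 → Set (Finset (Sym2 V))} {c : V × Bool → Fin 3}
    {Q : Finset (Sym2 V)} {m : V × Bool → V × Bool} :
    m ∈ Fam P c Q ↔ IsMat (univ : Finset (V × Bool)) m ∧ ∃ q : Fin 3 → Finset (Sym2 V),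
    (∀ i, q i ∈ P i) ∧ (∀ w, s(w.1, (m w).1) ∈ q (c w)) ∧
    (∀ i, ∀ e ∈ q i, ∃ w, s(w.1, (m w).1) = e) ∧ ∀ e ∈ Q, ∃ w, s(w.1, (m w).1) = e := by
  classical
  simp [Fam]

/-- the Hamiltonian cycles to be counted: unions of a member of the box with balanced sizes -/
def Good (P : Fin 3 → Set (Finset (Sym2 V))) (σ : Perm V) : Prop :=
  Full σ ∧ ∃ q : Fin 3 → Finset (Sym2 V), (∀ i, q i ∈ P i) ∧ ed σ = un q ∧
    2 * (q 0).card ≤ Fintype.card V ∧ 2 * (q 1).card ≤ Fintype.card V ∧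
    Fintype.card V < 2 * (q 0 ∪ q 1).card

end cycles

end Pool.Agent.MonCnt
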