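/-
MP_18d1ca_lc: counting circuits; facts on cycles (M5).
-/
import Pool.Agent.MonCnt.Defs
import Pool.Agent.MonCyc.Final

set_option linter.all false

namespace Pool.Agent.MonCnt

open Finset Equiv MonCyc

variable {V : Type*} [DecidableEq V]

theorem rot_ne {k : ℕ} (hk : 3 ≤ k) (i : Fin k) : finRotate k i ≠ i := by
  obtain ⟨m, rfl⟩ : ∃ m, k = m + 1 := ⟨k - 1, by omega⟩
  intro e
  have h := congrArg Fin.val e
  by_cases hi : i = Fin.last m
  · subst hi
    rw [finRotate_last] at h
    simp at h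
    omega
  · rw [coe_finRotate_of_ne_last hi] at h
    omega

theorem rot_ne2 {k : ℕ} (hk : 3 ≤ k) (i : Fin k) : finRotate k (finRotate k i) ≠ i := by
  obtain ⟨m, rfl⟩ : ∃ m, k = m + 1 := ⟨k - 1, by omega⟩
  intro e
  have h := congrArg Fin.val e
  by_cases hi : i = Fin.last m
  · subst hi
    rw [finRotate_last] at h
    have h0 : (0 : Fin (m + 1)) ≠ Fin.last m := by
      intro e2
      have := congrArg Fin.val e2
      simp at this
      omega
    rw [coe_finRotate_of_ne_last h0] at h
    simp at h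
    omega
  · by_cases hi2 : finRotate (m + 1) i = Fin.last m
    · rw [hi2, finRotate_last] at h
      have h3 := congrArg Fin.val hi2
      rw [coe_finRotate_of_ne_last hi] at h3
      simp at h h3
      omega
    · rw [coe_finRotate_of_ne_last hi2, coe_finRotate_of_ne_last hi] at h
      omega

/-- edges of a cyclic enumeration are distinct -/
theorem rot_edge_inj {k : ℕ} (hk : 3 ≤ k) {a : Fin k → V} (ha : Function.Injective a)
    {i j : Fin k} (e : s(a i, a (finRotate k i)) = s(a j, a (finRotate k j))) : i = j := by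
  rw [Sym2.eq_iff] at e
  rcases e with ⟨h1, _⟩ | ⟨h1, h2⟩
  · exact ha h1
  · exfalso
    apply rot_ne2 hk j
    rw [← ha h1]
    exact ha h2

theorem cyc_st {S : Finset (Sym2 V)} (h : IsCyc S) (x : V) :
    (st x S).card = 0 ∨ (st x S).card = 2 := by
  obtain ⟨k, hk, a, ha, hS⟩ := h
  by_cases hx : ∃ i, a i = x
  · right
    obtain ⟨i, rfl⟩ := hx
    set r := finRotate k with hr
    have h1 : st (a i) S = {s(a i, a (r i)), s(a (r.symm i), a i)} := by
      ext e
      rw [mem_st, mem_insert, mem_singleton]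
      constructor
      · rintro ⟨h1, h2⟩
        have h3 : e ∈ (S : Set (Sym2 V)) := h1
        rw [hS] at h3
        obtain ⟨j, rfl⟩ := h3
        simp only [Sym2.mem_iff] at h2
        rcases h2 with h2 | h2
        · left; rw [ha h2]
        · right
          have h4 : r j = i := (ha h2).symm
          rw [← h4, Equiv.symm_apply_apply]
      · rintro (rfl | rfl)
        · refine ⟨?_, Sym2.mem_mk_left _ _⟩
          have : s(a i, a (r i)) ∈ (S : Set (Sym2 V)) := by rw [hS]; exact ⟨i, rfl⟩
          exact this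
        · refine ⟨?_, Sym2.mem_mk_right _ _⟩
          have : s(a (r.symm i), a i) ∈ (S : Set (Sym2 V)) := by
            rw [hS]
            refine ⟨r.symm i, ?_⟩
            simp only [hr, Equiv.apply_symm_apply]
          exact this
    rw [h1, card_pair]
    intro e
    have e' : s(a i, a (finRotate k i)) =
        s(a (r.symm i), a (finRotate k (r.symm i))) := by
      rw [← hr, Equiv.apply_symm_apply]; exact e
    have h2 := rot_edge_inj hk ha e'
    apply rot_ne hk (r.symm i)
    rw [← hr, Equiv.apply_symm_apply]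
    exact h2
  · left
    rw [card_eq_zero]
    ext e
    rw [mem_st]
    constructor
    · rintro ⟨h1, h2⟩
      exfalso
      have h3 : e ∈ (S : Set (Sym2 V)) := h1
      rw [hS] at h3
      obtain ⟨j, rfl⟩ := h3
      simp only [Sym2.mem_iff] at h2
      rcases h2 with h2 | h2
      · exact hx ⟨_, h2.symm⟩
      · exact hx ⟨_, h2.symm⟩
    · intro h; exact absurd h (notMem_empty _)

theorem sg_full' {k : ℕ} (u w : Fin k) : ∃ m : ℕ, ((finRotate k) ^ m) u = w := by
  have h := sg_full (1 : Perm (Fin k))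
  have e : sg (1 : Perm (Fin k)) = finRotate k := by simp [sg]
  rw [e] at h
  exact h u w

variable [Fintype V]

theorem conj_pow_apply {k : ℕ} (e : Fin k ≃ V) (r : Perm (Fin k)) (m : ℕ) (x : V) :
    ((e.symm.trans (r.trans e) : Perm V) ^ m) x = e ((r ^ m) (e.symm x)) := by
  induction m with
  | zero => simp
  | succ m ih =>
    rw [pow_succ', Perm.mul_apply, ih, pow_succ', Perm.mul_apply]
    simp [Equiv.trans_apply]

theorem cyc_full {S : Finset (Sym2 V)} (h : IsCyc S) (hS : ∀ x, (st x S).Nonempty) :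
    ∃ σ : Perm V, Full σ ∧ ed σ = S := by
  obtain ⟨k, hk, a, ha, hSr⟩ := h
  have hsurj : Function.Surjective a := by
    intro x
    obtain ⟨e, he⟩ := hS x
    obtain ⟨h1, h2⟩ := mem_st.1 he
    have h3 : e ∈ (S : Set (Sym2 V)) := h1
    rw [hSr] at h3
    obtain ⟨j, rfl⟩ := h3
    simp only [Sym2.mem_iff] at h2
    rcases h2 with h2 | h2
    · exact ⟨_, h2.symm⟩
    · exact ⟨_, h2.symm⟩
  let e : Fin k ≃ V := Equiv.ofBijective a ⟨ha, hsurj⟩
  have hea : ∀ i, e i = a i := fun i => rfl
  refine ⟨e.symm.trans ((finRotate k).trans e), ?_, ?_⟩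
  · intro u w
    have h1 := sg_full' (k := k) (e.symm u) (e.symm w)
    obtain ⟨m, hm⟩ := h1
    refine ⟨m, ?_⟩
    rw [conj_pow_apply, hm, Equiv.apply_symm_apply]
  · rw [← coe_inj, hSr, ed]
    ext f
    simp only [coe_image, coe_univ, Set.image_univ, Set.mem_range, Equiv.trans_apply]
    constructor
    · rintro ⟨u, rfl⟩
      refine ⟨e.symm u, ?_⟩
      rw [← hea, ← hea, Equiv.apply_symm_apply]
    · rintro ⟨i, rfl⟩
      refine ⟨e i, ?_⟩
      rw [Equiv.symm_apply_apply, hea, hea]

theorem ed_card {σ : Perm V} (h : Full σ) (hV : 3 ≤ Fintype.card V) :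
    (ed σ).card = Fintype.card V := by
  rw [ed, card_image_of_injective _ (fun u w e => h.edge_inj hV e), card_univ]

theorem ae_true (σ : Perm V) (x : V) : ae σ (x, true) = s(x, σ x) := by simp [ae, ms]

theorem ae_false (σ : Perm V) (x : V) : ae σ (x, false) = s(x, σ⁻¹ x) := by simp [ae, ms]

theorem ed_st {σ : Perm V} (h : Full σ) (hV : 3 ≤ Fintype.card V) (x : V) :
    st x (ed σ) = {ae σ (x, true), ae σ (x, false)} ∧ ae σ (x, true) ≠ ae σ (x, false) := by
  constructor
  · ext e
    rw [mem_st, mem_insert, mem_singleton, ae_true, ae_false, ed, mem_image]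
    constructor
    · rintro ⟨⟨u, -, rfl⟩, h2⟩
      rw [Sym2.mem_iff] at h2
      rcases h2 with rfl | rfl
      · left; rfl
      · right
        rw [inv_ap, Sym2.eq_swap]
    · rintro (rfl | rfl)
      · exact ⟨⟨x, mem_univ _, rfl⟩, Sym2.mem_mk_left _ _⟩
      · refine ⟨⟨σ⁻¹ x, mem_univ _, ?_⟩, Sym2.mem_mk_left _ _⟩
        rw [ap_inv, Sym2.eq_swap]
  · rw [ae_true, ae_false]
    intro e
    have e' : s(x, σ x) = s(σ⁻¹ x, σ (σ⁻¹ x)) := by
      rw [ap_inv, e, Sym2.eq_swap]
    have h2 := h.edge_inj hV e'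
    apply h.ne hV (σ⁻¹ x)
    rw [ap_inv]
    exact h2

theorem ae_mem {σ : Perm V} (w : V × Bool) : ae σ w ∈ ed σ := by
  obtain ⟨x, b⟩ := w
  rw [ed, mem_image]
  cases b
  · refine ⟨σ⁻¹ x, mem_univ _, ?_⟩
    rw [ap_inv, Sym2.eq_swap, ae_false]
  · exact ⟨x, mem_univ _, (ae_true _ _).symm⟩

/-- an edge of the cycle is the edge of at most two arc ports -/
theorem ae_fiber {σ : Perm V} (h : Full σ) (hV : 3 ≤ Fintype.card V) (e : Sym2 V) :
    (univ.filter (fun w => ae σ w = e)).card ≤ 2 := by
  rw [card_filter_ports]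
  have h1 : (univ.filter (fun u => ae σ (u, true) = e)).card ≤ 1 := by
    rw [card_le_one]
    intro u hu w hw
    simp only [mem_filter, mem_univ, true_and, ae_true] at hu hw
    exact h.edge_inj hV (hu.trans hw.symm)
  have h2 : (univ.filter (fun u => ae σ (u, false) = e)).card ≤ 1 := by
    rw [card_le_one]
    intro u hu w hw
    simp only [mem_filter, mem_univ, true_and, ae_false] at hu hw
    have e1 : s(σ⁻¹ u, σ (σ⁻¹ u)) = s(σ⁻¹ w, σ (σ⁻¹ w)) := by
      rw [ap_inv, ap_inv, Sym2.eq_swap, hu, ← hw, Sym2.eq_swap]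
    exact σ⁻¹.injective (h.edge_inj hV e1)
  omega

end Pool.Agent.MonCnt
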