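/-
MP_18d1ca_lc: sizes of the port classes and the number of mixed ports.
-/
import Pool.Agent.MonCnt.Cyc

set_option linter.all false

namespace Pool.Agent.MonCnt

open Finset Equiv MonCyc

section cycles

variable {V : Type*} [DecidableEq V] [Fintype V]

theorem card_Uc {P : Fin 3 → Set (Finset (Sym2 V))} {T : Finset V} {p p' : V → Sym2 V}
    (B : PBox P T p p') (hV : 3 ≤ Fintype.card V) {σ0 : Perm V} (h0 : Full σ0)
    {q0 : Fin 3 → Finset (Sym2 V)} (hq0 : ∀ i, q0 i ∈ P i) (he0 : ed σ0 = un q0)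
    (h1 : 2 * (q0 0).card ≤ Fintype.card V) (h2 : 2 * (q0 1).card ≤ Fintype.card V)
    (h3 : Fintype.card V < 2 * (q0 0 ∪ q0 1).card) {c : V × Bool → Fin 3}
    (hc : ∀ w, w.1 ∉ T → c w = ac q0 σ0 w) (i : Fin 3) : (Uc c T i).card ≤ Fintype.card V := by
  have hac : ∀ w, ae σ0 w ∈ q0 (ac q0 σ0 w) := by
    intro w
    have h : ∃ i, ae σ0 w ∈ q0 i := by
      rw [← mem_un, ← he0]; exact ae_mem w
    rw [ac, dif_pos h]
    exact h.choose_spec
  have hU : ∀ w, w ∈ Uc c T i ↔ w.1 ∉ T ∧ c w = i := by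
    intro w; simp only [Uc, mem_filter, mem_univ, true_and]
  have hin : ∀ w ∈ Uc c T i, ae σ0 w ∈ q0 i := by
    intro w hw
    obtain ⟨ha, hb⟩ := (hU w).1 hw
    have := hac w
    rwa [← hc w ha, hb] at this
  have hE : ∀ (E : Finset (Sym2 V)), (∀ w ∈ Uc c T i, ae σ0 w ∈ E) →
      (Uc c T i).card ≤ 2 * E.card := by
    intro E hE
    refine card_le_mul_card_image_of_maps_to hE 2 (fun e _ => ?_)
    refine (card_le_card ?_).trans (ae_fiber h0 hV e)
    intro w hw
    simp only [mem_filter, mem_univ, true_and] at hw ⊢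
    exact hw.2
  have h01 : i = 0 ∨ i = 1 ∨ i = 2 := by fin_cases i <;> simp
  rcases h01 with rfl | rfl | rfl
  · exact (hE (q0 0) hin).trans h1
  · exact (hE (q0 1) hin).trans h2
  · have hsub : q0 0 ∪ q0 1 ⊆ ed σ0 := by
      intro e he
      rw [he0, mem_un]
      rcases mem_union.1 he with h | h
      · exact ⟨0, h⟩
      · exact ⟨1, h⟩
    have h4 := hE (ed σ0 \ (q0 0 ∪ q0 1)) (by
      intro w hw
      have hw2 := hin w hw
      have hwT := ((hU w).1 hw).1
      rw [mem_sdiff]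
      refine ⟨ae_mem w, ?_⟩
      intro hm
      have hk : ∀ j : Fin 3, j ≠ 2 → ae σ0 w ∉ q0 j := by
        intro j hj hmj
        have hd := B.pure_disj w.1 hwT q0 hq0 j 2 hj
        rw [Finset.disjoint_left] at hd
        exact hd (mem_st.2 ⟨hmj, by simp [ae]⟩) (mem_st.2 ⟨hw2, by simp [ae]⟩)
      rcases mem_union.1 hm with h | h
      · exact hk 0 (by decide) h
      · exact hk 1 (by decide) h)
    rw [card_sdiff_of_subset hsub, ed_card h0 hV] at h4
    omega

theorem card_mx (c : V × Bool → Fin 3) (T : Finset V) : (mx fl (Uc c T)).card =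
    2 * (univ.filter (fun u => u ∉ T ∧ c (u, true) ≠ c (u, false))).card := by
  have hm : mx fl (Uc c T) = univ.filter (fun w => w.1 ∉ T ∧ c w ≠ c (fl w)) := by
    ext w
    rw [mx, mem_filter, mem_filter, mem_al, mem_al]
    simp only [Uc, mem_filter, mem_univ, true_and, fl]
    constructor
    · rintro ⟨⟨i, h1, h2⟩, _, h3⟩
      refine ⟨h1, ?_⟩
      intro e
      exact h3 _ ⟨h1, rfl⟩ ⟨h1, e.symm⟩
    · rintro ⟨h1, h2⟩
      refine ⟨⟨_, h1, rfl⟩, ⟨_, h1, rfl⟩, ?_⟩
      rintro i ⟨_, h3⟩ ⟨_, h4⟩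
      exact h2 (h3.trans h4.symm)
  rw [hm, card_filter_ports, two_mul]
  congr 1
  congr 1
  ext u
  simp only [mem_filter, mem_univ, true_and, fl, Bool.not_false]
  exact and_congr_right (fun _ => ne_comm)

end cycles

end Pool.Agent.MonCnt
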