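/-
MP_18d1ca_lc: counting circuits; M6: the family of port matchings is a semi-instance.
-/
import Pool.Agent.MonCnt.Defs

set_option linter.all false

namespace Pool.Agent.MonCnt

open Finset Equiv MonCyc

section

variable {V : Type*} [DecidableEq V] [Fintype V]

theorem m6_mem_Ap {T : Finset V} {w : V × Bool} : w ∈ Ap T ↔ w.1 ∈ T := by
  simp [Ap]

theorem m6_mem_Uc {c : V × Bool → Fin 3} {T : Finset V} {i : Fin 3} {w : V × Bool} :
    w ∈ Uc c T i ↔ w.1 ∉ T ∧ c w = i := by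
  simp [Uc]

theorem m6_univ (c : V × Bool → Fin 3) (T : Finset V) : Ap T ∪ al (Uc c T) = univ := by
  ext w
  simp only [mem_union, m6_mem_Ap, mem_al, m6_mem_Uc, mem_univ, iff_true]
  by_cases h : w.1 ∈ T
  · exact Or.inl h
  · exact Or.inr ⟨c w, h, rfl⟩

/-- the class of a port outside `T` whose edge lies in `q i` -/
theorem m6_cls {P : Fin 3 → Set (Finset (Sym2 V))} {T : Finset V} {p p' : V → Sym2 V}
    (B : PBox P T p p') {q : Fin 3 → Finset (Sym2 V)} (hq : ∀ i, q i ∈ P i) {e : Sym2 V} {x : V}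
    (hx : x ∉ T) (hxe : x ∈ e) {i j : Fin 3} (hi : e ∈ q i) (hj : e ∈ q j) : i = j := by
  by_contra hij
  have h := B.pure_disj x hx q hq i j hij
  exact (Finset.disjoint_left.1 h (mem_st.2 ⟨hi, hxe⟩)) (mem_st.2 ⟨hj, hxe⟩)

theorem m6_rc_fl {m : V × Bool → V × Bool} (u : V) (b b' : Bool) :
    Rc fl m (u, b) (u, b') := by
  by_cases h : b' = b
  · subst h; exact Relation.ReflTransGen.refl
  · apply Relation.ReflTransGen.single
    left
    simp only [fl, Prod.mk.injEq, true_and]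
    cases b <;> cases b' <;> simp_all

/-- an edge represented by a port is crossed by the reachability relation -/
theorem m6_step {m : V × Bool → V × Bool} (hm : ∀ w, m (m w) = w) {w : V × Bool} {x y : V}
    (he : s(w.1, (m w).1) = s(x, y)) (b b' : Bool) : Rc fl m (x, b) (y, b') := by
  rw [Sym2.eq_iff] at he
  rcases he with ⟨h3, h4⟩ | ⟨h3, h4⟩
  · have e1 : w = (x, w.2) := Prod.ext h3 rfl
    have e2 : m w = (y, (m w).2) := Prod.ext h4 rfl
    refine (m6_rc_fl x b w.2).trans ?_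
    rw [← e1]
    refine Relation.ReflTransGen.head (Or.inr rfl) ?_
    rw [e2]
    exact m6_rc_fl _ _ _
  · have e1 : w = (y, w.2) := Prod.ext h3 rfl
    have e2 : m w = (x, (m w).2) := Prod.ext h4 rfl
    refine (m6_rc_fl x b (m w).2).trans ?_
    rw [← e2]
    refine Relation.ReflTransGen.head (Or.inr rfl) ?_
    rw [hm, e1]
    exact m6_rc_fl _ _ _

theorem m6_conn {m : V × Bool → V × Bool} (hm : ∀ w, m (m w) = w) {S : Finset (Sym2 V)}
    (hS : IsCyc S) (h1 : ∀ w : V × Bool, s(w.1, (m w).1) ∈ S)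
    (h2 : ∀ e ∈ S, ∃ w : V × Bool, s(w.1, (m w).1) = e) (u w : V × Bool) : Rc fl m u w := by
  obtain ⟨k, hk, a, ha, hr⟩ := hS
  obtain ⟨n, rfl⟩ : ∃ n, k = n + 1 := ⟨k - 1, by omega⟩
  have hstep : ∀ i : Fin (n + 1), ∀ b b', Rc fl m (a i, b) (a (finRotate (n + 1) i), b') := by
    intro i b b'
    have hmem : s(a i, a (finRotate (n + 1) i)) ∈ S := by
      rw [← mem_coe, hr]; exact ⟨i, rfl⟩
    obtain ⟨w, hw⟩ := h2 _ hmem
    exact m6_step hm hw b b'
  have hk1 : ∀ (j : ℕ) (hj : j < n + 1) (b b' : Bool),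
      Rc fl m (a ⟨0, by omega⟩, b) (a ⟨j, hj⟩, b') := by
    intro j
    induction j with
    | zero => intro hj b b'; exact m6_rc_fl _ b b'
    | succ j ih =>
      intro hj b b'
      refine (ih (by omega) b true).trans ?_
      have h3 := hstep ⟨j, by omega⟩ true b'
      rwa [finRotate_of_lt (by omega : j < n)] at h3
  have hsymm : ∀ x y, Rc fl m x y → Rc fl m y x := by
    intro x y hxy
    have hst : ∀ x y : V × Bool, (y = fl x ∨ y = m x) → (x = fl y ∨ x = m y) := by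
      rintro x y (rfl | rfl)
      · left
        simp [fl]
      · right
        exact (hm x).symm
    induction hxy with
    | refl => exact Relation.ReflTransGen.refl
    | @tail b c hb hc ih => exact Relation.ReflTransGen.head (hst _ _ hc) ih
  have hv : ∀ x : V, ∃ i, a i = x := by
    intro x
    have h3 := h1 (x, true)
    rw [← mem_coe, hr] at h3
    obtain ⟨i, hi⟩ := h3
    simp only [] at hi
    rw [Sym2.eq_iff] at hi
    rcases hi with ⟨h4, _⟩ | ⟨_, h4⟩
    · exact ⟨i, h4⟩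
    · exact ⟨_, h4⟩
  obtain ⟨x, b⟩ := u
  obtain ⟨y, b'⟩ := w
  obtain ⟨i, rfl⟩ := hv x
  obtain ⟨j, rfl⟩ := hv y
  refine (hsymm _ _ (hk1 i.1 i.2 true b)).trans ?_
  exact hk1 j.1 j.2 true b'

theorem m6_Q {m : V × Bool → V × Bool} (hm : ∀ w, m (m w) = w) {T : Finset V} {e : Sym2 V}
    (hT : ∃ x ∈ T, x ∈ e) (he : ∃ w : V × Bool, s(w.1, (m w).1) = e) :
    ∃ w ∈ Ap T, s(w.1, (m w).1) = e := by
  obtain ⟨x, hx, hxe⟩ := hT
  obtain ⟨w, rfl⟩ := he
  rw [Sym2.mem_iff] at hxe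
  rcases hxe with rfl | rfl
  · exact ⟨w, m6_mem_Ap.2 hx, rfl⟩
  · refine ⟨m w, m6_mem_Ap.2 hx, ?_⟩
    rw [hm, Sym2.eq_swap]

theorem fam_SI {P : Fin 3 → Set (Finset (Sym2 V))} {T : Finset V} {p p' : V → Sym2 V}
    (B : PBox P T p p') (c : V × Bool → Fin 3) {Q : Finset (Sym2 V)}
    (hQ : ∀ e ∈ Q, ∃ x ∈ T, x ∈ e) : SI fl (Ap T) (Uc c T) (Fam P c Q) where
  disjA := by
    intro i u hu h
    exact (m6_mem_Uc.1 hu).1 (m6_mem_Ap.1 h)
  disj := by
    intro i j u hi hj
    rw [← (m6_mem_Uc.1 hi).2, (m6_mem_Uc.1 hj).2]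
  mat0 := by
    rw [m6_univ]
    constructor
    · rintro ⟨u, b⟩; simp [fl]
    · rintro ⟨u, b⟩; simp [fl]
  mat := by
    intro m hm
    rw [m6_univ]
    exact (mem_Fam.1 hm).1
  cls := by
    intro m hm i u hu hmu
    obtain ⟨hmat, q, hq, h1, h2, h3⟩ := mem_Fam.1 hm
    obtain ⟨hu1, hu2⟩ := m6_mem_Uc.1 hu
    rw [m6_mem_Ap] at hmu
    refine m6_mem_Uc.2 ⟨hmu, ?_⟩
    have e1 := h1 u
    have e2 := h1 (m u)
    rw [hmat.inv, Sym2.eq_swap] at e2
    rw [← hu2]
    exact m6_cls B hq hu1 (Sym2.mem_mk_left _ _) e2 e1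
  mix := by
    intro f hf hA
    choose hmat q hq h1 h2 h3 using fun i => mem_Fam.1 (hf i)
    have hAc : ∀ w, w.1 ∈ T → ∀ i, f (c w) w = f i w := fun w hw i =>
      hA (c w) i w (m6_mem_Ap.2 hw)
    have hinv : ∀ w, f (c (f (c w) w)) (f (c w) w) = w := by
      intro w
      by_cases hw : w.1 ∈ T
      · have e1 : f (c w) w = f (c (f (c w) w)) w := hAc w hw _
        calc f (c (f (c w) w)) (f (c w) w) = f (c (f (c w) w)) (f (c (f (c w) w)) w) := by
              rw [← e1]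
          _ = w := (hmat _).inv w
      · by_cases hw2 : (f (c w) w).1 ∈ T
        · rw [hAc _ hw2 (c w)]
          exact (hmat _).inv w
        · have e1 := h1 (c w) w
          have e2 := h1 (c w) (f (c w) w)
          rw [(hmat _).inv, Sym2.eq_swap] at e2
          have e3 : c (f (c w) w) = c w := m6_cls B (hq (c w)) hw (Sym2.mem_mk_left _ _) e2 e1
          rw [e3]
          exact (hmat _).inv w
    refine ⟨fun w => f (c w) w, ?_, ?_, ?_⟩
    · rw [mem_Fam]
      refine ⟨⟨hinv, ?_⟩, fun i => q i i, fun i => hq i i, fun w => h1 (c w) w, ?_, ?_⟩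
      · intro w
        simp only [mem_univ, iff_true]
        exact (hmat (c w)).ne (mem_univ w)
      · intro i e he
        obtain ⟨w, hw⟩ := h2 i i e he
        refine ⟨w, ?_⟩
        by_cases hwT : w.1 ∈ T
        · rw [hAc w hwT i]; exact hw
        · have e1 := h1 i w
          rw [hw] at e1
          have e2 : c w = i := m6_cls B (hq i) hwT (by rw [← hw]; exact Sym2.mem_mk_left _ _) e1 he
          simp only [e2]
          exact hw
      · intro e he
        obtain ⟨w, hw, hwe⟩ := m6_Q (hmat 0).inv (hQ e he) (h3 0 e he)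
        refine ⟨w, ?_⟩
        rw [hAc w (m6_mem_Ap.1 hw) 0]
        exact hwe
    · intro i u hu
      obtain ⟨_, hu2⟩ := m6_mem_Uc.1 hu
      simp only [hu2]
    · intro i a ha
      exact hAc a (m6_mem_Ap.1 ha) i
  conn := by
    intro m hm u _ w _
    obtain ⟨hmat, q, hq, h1, h2, h3⟩ := mem_Fam.1 hm
    refine m6_conn hmat.inv (B.cyc q hq) ?_ ?_ u w
    · intro w
      exact mem_un.2 ⟨c w, h1 w⟩
    · intro e he
      obtain ⟨i, hi⟩ := mem_un.1 he
      exact h2 i e hi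

theorem m6_card_Ap (T : Finset V) : (Ap T).card = 2 * T.card := by
  have h : Ap T = T ×ˢ (univ : Finset Bool) := by
    ext w
    simp [m6_mem_Ap]
  rw [h, card_product, card_univ, Fintype.card_bool, mul_comm]

theorem m6_fiber (x : V) : (univ.filter (fun a : V × Bool => a.1 = x)).card ≤ 2 := by
  have h : univ.filter (fun a : V × Bool => a.1 = x) = Ap {x} := by
    ext w
    simp [m6_mem_Ap]
  rw [h, m6_card_Ap, card_singleton]

theorem m6_card_univ : (univ : Finset (V × Bool)).card = 2 * Fintype.card V := by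
  rw [card_univ, Fintype.card_prod, Fintype.card_bool, mul_comm]

/-- the hypothesis on the forced edges -/
theorem m6_forced {P : Fin 3 → Set (Finset (Sym2 V))} {T : Finset V} (c : V × Bool → Fin 3)
    {Q : Finset (Sym2 V)} (hQ : ∀ e ∈ Q, ∃ x ∈ T, x ∈ e) :
    ∀ m ∈ Fam P c Q, ∀ e ∈ Q, ∃ a ∈ Ap T, s(a.1, (m a).1) = e := by
  intro m hm e he
  obtain ⟨hmat, q, hq, h1, h2, h3⟩ := mem_Fam.1 hm
  exact m6_Q hmat.inv (hQ e he) (h3 e he)

end

end Pool.Agent.MonCnt
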