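/-
MP_18d1ca_lc: counting circuits; contraction of a pair of a semi-instance.
-/
import Pool.Agent.MonCnt.Defs

set_option linter.all false

namespace Pool.Agent.MonCnt

open Finset Equiv MonCyc

section abstract

variable {α : Type*} [DecidableEq α] [Fintype α]

theorem m1_rem {V : Finset α} {m : α → α} (hmat : IsMat V m) {x y : α} (hx : x ∈ V)
    (h : m x = y) : IsMat (V \ {x, y}) (rem x y m) := by
  have h' : m y = x := by rw [← h, hmat.inv]
  have key : ∀ u, ¬ (u = x ∨ u = y) → ¬ (m u = x ∨ m u = y) := by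
    rintro u hu (e | e)
    · exact hu (Or.inr (hmat.inj (e.trans h'.symm)))
    · exact hu (Or.inl (hmat.inj (e.trans h.symm)))
  constructor
  · intro u
    by_cases hu : u = x ∨ u = y
    · simp only [rem, if_pos hu]
    · simp only [rem, if_neg hu, if_neg (key u hu), hmat.inv]
  · intro u
    by_cases hu : u = x ∨ u = y
    · simp only [rem, if_pos hu, mem_sdiff, mem_insert, mem_singleton, hu]
      simp
    · simp only [rem, if_neg hu, mem_sdiff, mem_insert, mem_singleton, hu, not_false_eq_true,
        and_true]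
      exact hmat.mem u

theorem m1_spl {V : Finset α} {m0 : α → α} (hm : IsMat V m0) {x y : α} (hxa : x ∈ V) (hya : y ∈ V)
    (hxy : x ≠ y) (hne : y ≠ m0 x) : IsMat (V \ {x, y}) (spl m0 x y) := by
  have h1 : m0 x ≠ x := hm.ne hxa
  have h2 : m0 y ≠ y := hm.ne hya
  have h3 : m0 y ≠ x := fun e => hne (by rw [← e, hm.inv])
  have h4 : m0 x ≠ m0 y := fun e => hxy (hm.inj e)
  have hinv := hm.inv
  constructor
  · intro u
    by_cases hu : u = x ∨ u = y
    · simp only [spl, if_pos hu]
    · by_cases hu1 : m0 u = x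
      · have : u = m0 x := by rw [← hu1, hinv]
        subst this
        simp only [spl, if_neg hu, hinv, if_true, h3, h2, or_self, if_false]
        simp [hxy.symm]
      · by_cases hu2 : m0 u = y
        · have : u = m0 y := by rw [← hu2, hinv]
          subst this
          simp only [spl, if_neg hu, hinv, if_true, hxy.symm, if_false]
          simp [h1, hne.symm]
        · simp only [spl, if_neg hu, if_neg hu1, if_neg hu2]
          have h5 : ¬ (m0 u = x ∨ m0 u = y) := by tauto
          rw [if_neg h5, hinv]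
          have h6 : u ≠ x := fun e => hu (Or.inl e)
          have h7 : u ≠ y := fun e => hu (Or.inr e)
          simp [h6, h7]
  · intro u
    have hal : u ∈ V \ {x, y} ↔ u ∈ V ∧ ¬ (u = x ∨ u = y) := by
      simp only [mem_sdiff, mem_insert, mem_singleton]
    rw [hal]
    by_cases hu : u = x ∨ u = y
    · simp only [spl, if_pos hu]
      simp [hu]
    · by_cases hu1 : m0 u = x
      · have : u = m0 x := by rw [← hu1, hinv]
        subst this
        simp only [spl, if_neg hu, hinv, if_true]
        simp only [hu, not_false_eq_true, and_true]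
        constructor
        · intro _
          exact hm.map_mem hxa
        · intro _
          exact h4.symm
      · by_cases hu2 : m0 u = y
        · have : u = m0 y := by rw [← hu2, hinv]
          subst this
          simp only [spl, if_neg hu, hinv, if_true, hxy.symm, if_false]
          simp only [hu, not_false_eq_true, and_true]
          constructor
          · intro _
            exact hm.map_mem hya
          · intro _
            exact h4
        · simp only [spl, if_neg hu, if_neg hu1, if_neg hu2, hu, not_false_eq_true, and_true]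
          exact hm.mem u

theorem m1_reach {V : Finset α} {m0 m : α → α} (hm : IsMat V m0) (hmat : IsMat V m) {x y : α}
    (hxa : x ∈ V) (hya : y ∈ V) (hxy : x ≠ y) (hne : y ≠ m0 x) (h : m x = y) {u v : α}
    (hu : ¬ (u = x ∨ u = y)) (hr : Rc m0 m u v) :
    (¬ (v = x ∨ v = y) → Rc (spl m0 x y) (rem x y m) u v) ∧
      (v = x → Rc (spl m0 x y) (rem x y m) u (m0 x)) ∧
      (v = y → Rc (spl m0 x y) (rem x y m) u (m0 y)) := by
  have h' : m y = x := by rw [← h, hmat.inv]
  have hinv := hm.inv
  have h1 : m0 x ≠ x := hm.ne hxa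
  have h2 : m0 y ≠ y := hm.ne hya
  have h3 : m0 y ≠ x := fun e => hne (by rw [← e, hm.inv])
  have s1 : spl m0 x y (m0 x) = m0 y := spl_val1 hinv h1 hne.symm
  have s2 : spl m0 x y (m0 y) = m0 x := spl_val2 hinv hxy h3 h2
  induction hr with
  | refl => exact ⟨fun _ => Relation.ReflTransGen.refl, fun e => absurd (Or.inl e) hu,
      fun e => absurd (Or.inr e) hu⟩
  | @tail b c hb hc ih =>
    obtain ⟨ih1, ih2, ih3⟩ := ih
    by_cases hbx : b = x
    · subst hbx
      have r := ih2 rfl
      rcases hc with rfl | rfl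
      · exact ⟨fun _ => r, fun e => absurd e h1, fun e => absurd e.symm hne⟩
      · rw [h]
        exact ⟨fun e => absurd (Or.inr rfl) e, fun e => absurd e.symm hxy,
          fun _ => r.tail (Or.inl s1.symm)⟩
    · by_cases hby : b = y
      · subst hby
        have r := ih3 rfl
        rcases hc with rfl | rfl
        · exact ⟨fun _ => r, fun e => absurd e h3, fun e => absurd e h2⟩
        · rw [h']
          exact ⟨fun e => absurd (Or.inl rfl) e, fun _ => r.tail (Or.inl s2.symm),
            fun e => absurd e hxy⟩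
      · have hb' : ¬ (b = x ∨ b = y) := by tauto
        have r := ih1 hb'
        rcases hc with rfl | rfl
        · refine ⟨fun e => ?_, fun e => ?_, fun e => ?_⟩
          · refine r.tail (Or.inl ?_)
            simp only [spl, if_neg hb']
            rw [if_neg (fun e' => e (Or.inl e')), if_neg (fun e' => e (Or.inr e'))]
          · have : b = m0 x := by rw [← e, hinv]
            rw [← this]; exact r
          · have : b = m0 y := by rw [← e, hinv]
            rw [← this]; exact r
        · have hne' : ¬ (m b = x ∨ m b = y) := by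
            rintro (e | e)
            · exact hb' (Or.inr (hmat.inj (e.trans h'.symm)))
            · exact hb' (Or.inl (hmat.inj (e.trans h.symm)))
          refine ⟨fun _ => ?_, fun e => absurd (Or.inl e) hne', fun e => absurd (Or.inr e) hne'⟩
          refine r.tail (Or.inr ?_)
          simp only [rem, if_neg hb']

theorem m1_union (A : Finset α) (U : Fin 3 → Finset α) (a b : α) :
    (A \ {a, b}) ∪ al (U' U a b) = (A ∪ al U) \ {a, b} := by
  rw [al_U', union_sdiff_distrib]

theorem si_contract {m0 : α → α} {A : Finset α} {U : Fin 3 → Finset α} {F : Finset (α → α)}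
    (I : SI m0 A U F) {a b : α} (ha : a ∈ A) (hb : b ∈ A ∪ al U) (hab : b ≠ a) (hne : b ≠ m0 a) :
    SI (spl m0 a b) (A \ {a, b}) (U' U a b) ((F.filter (fun m => m a = b)).image (rem a b)) := by
  have haV : a ∈ A ∪ al U := mem_union_left _ ha
  have hU' : ∀ j u, u ∈ U' U a b j ↔ u ∈ U j ∧ ¬ (u = a ∨ u = b) := by
    intro j u
    simp only [U', mem_sdiff, mem_insert, mem_singleton]
  have hA' : ∀ u, u ∈ A \ {a, b} ↔ u ∈ A ∧ ¬ (u = a ∨ u = b) := by
    intro u
    simp only [mem_sdiff, mem_insert, mem_singleton]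
  have hF' : ∀ m ∈ (F.filter (fun m => m a = b)).image (rem a b),
      ∃ m1 ∈ F, m1 a = b ∧ m = rem a b m1 := by
    intro m hm
    obtain ⟨m1, h1, rfl⟩ := mem_image.1 hm
    exact ⟨m1, (mem_filter.1 h1).1, (mem_filter.1 h1).2, rfl⟩
  refine ⟨?_, ?_, ?_, ?_, ?_, ?_, ?_⟩
  · intro i u hu h
    exact I.disjA i u ((hU' _ _).1 hu).1 ((hA' _).1 h).1
  · intro i j u h1 h2
    exact I.disj i j u ((hU' _ _).1 h1).1 ((hU' _ _).1 h2).1
  · rw [m1_union]
    exact m1_spl I.mat0 haV hb hab.symm hne
  · intro m hm
    obtain ⟨m1, h1, h2, rfl⟩ := hF' m hm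
    rw [m1_union]
    exact m1_rem (I.mat m1 h1) haV h2
  · intro m hm i u hu hmu
    obtain ⟨m1, h1, h2, rfl⟩ := hF' m hm
    have hmat := I.mat m1 h1
    have h3 : m1 b = a := by rw [← h2, hmat.inv]
    obtain ⟨hu1, hu2⟩ := (hU' _ _).1 hu
    have e : rem a b m1 u = m1 u := by simp only [rem, if_neg hu2]
    rw [e] at hmu ⊢
    have h4 : ¬ (m1 u = a ∨ m1 u = b) := by
      rintro (e | e)
      · exact hu2 (Or.inr (hmat.inj (e.trans h3.symm)))
      · exact hu2 (Or.inl (hmat.inj (e.trans h2.symm)))
    rw [hA'] at hmu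
    rw [hU']
    exact ⟨I.cls m1 h1 i u hu1 (fun h => hmu ⟨h, h4⟩), h4⟩
  · intro f' hf' hag
    choose f hf1 hf2 hf3 using fun j => hF' _ (hf' j)
    have hb2 : ∀ i, f i b = a := fun i => by rw [← hf2 i, (I.mat _ (hf1 i)).inv]
    have hval : ∀ i u, ¬ (u = a ∨ u = b) → f' i u = f i u := by
      intro i u hu
      rw [hf3 i]
      simp only [rem, if_neg hu]
    obtain ⟨m, hm, hm1, hm2⟩ := I.mix f hf1 (by
      intro i j x hx
      by_cases h : x = a ∨ x = b
      · rcases h with rfl | rfl
        · rw [hf2 i, hf2 j]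
        · rw [hb2 i, hb2 j]
      · rw [← hval i x h, ← hval j x h]
        exact hag i j x ((hA' x).2 ⟨hx, h⟩))
    refine ⟨rem a b m, mem_image.2 ⟨m, mem_filter.2 ⟨hm, ?_⟩, rfl⟩, ?_, ?_⟩
    · rw [hm2 0 a ha, hf2 0]
    · intro i u hu
      obtain ⟨hu1, hu2⟩ := (hU' _ _).1 hu
      rw [hval i u hu2]
      simp only [rem, if_neg hu2]
      exact hm1 i u hu1
    · intro i x hx
      obtain ⟨hx1, hx2⟩ := (hA' _).1 hx
      rw [hval i x hx2]
      simp only [rem, if_neg hx2]
      exact hm2 i x hx1
  · intro m hm u hu w hw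
    obtain ⟨m1, h1, h2, rfl⟩ := hF' m hm
    rw [m1_union] at hu hw
    simp only [mem_sdiff, mem_insert, mem_singleton] at hu hw
    exact (m1_reach I.mat0 (I.mat m1 h1) haV hb hab.symm hne h2 hu.2
      (I.conn m1 h1 u hu.1 w hw.1)).1 hw.2

theorem si_card_image {m0 : α → α} {A : Finset α} {U : Fin 3 → Finset α} {F : Finset (α → α)}
    (I : SI m0 A U F) {a b : α} (ha : a ∈ A) (hb : b ∈ A ∪ al U) :
    ((F.filter (fun m => m a = b)).image (rem a b)).card = (F.filter (fun m => m a = b)).card := by
  apply card_image_of_injOn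
  intro m hm m1 hm1 e
  simp only [coe_filter, Set.mem_setOf_eq] at hm hm1
  have h := I.mat m hm.1
  have h1 := I.mat m1 hm1.1
  funext u
  by_cases hu : u = a
  · rw [hu, hm.2, hm1.2]
  · by_cases hu' : u = b
    · rw [hu', ← hm.2, h.inv]
      rw [hm.2, ← hm1.2, h1.inv]
    · have := congrFun e u
      simp only [rem] at this
      rwa [if_neg (by tauto), if_neg (by tauto)] at this

theorem si_mx {m0 : α → α} {A : Finset α} {U : Fin 3 → Finset α} {F : Finset (α → α)}
    (I : SI m0 A U F) {a b : α} (ha : a ∈ A) (hb : b ∈ A ∪ al U) (hab : b ≠ a) (hne : b ≠ m0 a) :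
    (mx m0 U).card ≤ (mx (spl m0 a b) (U' U a b)).card + 2 := by
  have hinv := I.mat0.inv
  have hAl : ∀ u, u ∈ al U → u ≠ a := by
    intro u hu e
    obtain ⟨i, hi⟩ := mem_al.1 hu
    exact I.disjA i u hi (by rw [e]; exact ha)
  have hsub : mx m0 U ⊆ insert b (insert (m0 b) (mx (spl m0 a b) (U' U a b))) := by
    intro u hu
    rw [mem_insert, mem_insert]
    by_cases h1 : u = b
    · exact Or.inl h1
    by_cases h2 : u = m0 b
    · exact Or.inr (Or.inl h2)
    right; right
    simp only [mx, mem_filter] at hu ⊢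
    obtain ⟨g1, g2, g3⟩ := hu
    have h3 : u ≠ a := hAl u g1
    have h4 : m0 u ≠ a := hAl _ g2
    have h5 : u ≠ m0 a := fun e => h4 (by rw [e, hinv])
    have h6 : m0 u ≠ b := fun e => h2 (by rw [← e, hinv])
    rw [spl_val3 hinv h3 h1 h5 h2, al_U']
    simp only [mem_sdiff, mem_insert, mem_singleton, U', not_or]
    exact ⟨⟨g1, h3, h1⟩, ⟨g2, h4, h6⟩, fun i hi h => g3 i hi.1 h.1⟩
  calc (mx m0 U).card ≤ _ := card_le_card hsub
    _ ≤ (insert (m0 b) (mx (spl m0 a b) (U' U a b))).card + 1 := card_insert_le _ _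
    _ ≤ ((mx (spl m0 a b) (U' U a b)).card + 1) + 1 := Nat.add_le_add_right (card_insert_le _ _) 1

/-- if a member agrees with `m0` at `a` then there are only two ports -/
theorem si_two {m0 : α → α} {A : Finset α} {U : Fin 3 → Finset α} {F : Finset (α → α)}
    (I : SI m0 A U F) {a : α} (ha : a ∈ A) {m : α → α} (hm : m ∈ F) (h : m a = m0 a) :
    A ∪ al U = {a, m0 a} := by
  have haV : a ∈ A ∪ al U := mem_union_left _ ha
  have h' : m (m0 a) = a := by rw [← h, (I.mat m hm).inv]
  have key : ∀ v, Rc m0 m a v → v = a ∨ v = m0 a := by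
    intro v hv
    induction hv with
    | refl => exact Or.inl rfl
    | @tail b c hb hc ih =>
      rcases ih with rfl | rfl
      · rcases hc with rfl | rfl
        · exact Or.inr rfl
        · exact Or.inr h
      · rcases hc with rfl | rfl
        · exact Or.inl (I.mat0.inv _)
        · exact Or.inl h'
  ext v
  simp only [mem_insert, mem_singleton]
  constructor
  · intro hv
    exact key v (I.conn m hm a haV v hv)
  · rintro (rfl | rfl)
    · exact haV
    · exact I.mat0.map_mem haV

/-- moving a class port to the free ports -/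
theorem si_move {m0 : α → α} {A : Finset α} {U : Fin 3 → Finset α} {F : Finset (α → α)}
    (I : SI m0 A U F) {i : Fin 3} {x : α} (hx : x ∈ U i) :
    SI m0 (insert x A) (fun j => (U j).erase x) F ∧
      (mx m0 U).card ≤ (mx m0 (fun j => (U j).erase x)).card + 2 := by
  have hal : ∀ u, u ∈ al (fun j => (U j).erase x) ↔ u ∈ al U ∧ u ≠ x := by
    intro u
    simp only [mem_al, mem_erase]
    constructor
    · rintro ⟨j, h1, h2⟩
      exact ⟨⟨j, h2⟩, h1⟩
    · rintro ⟨⟨j, h2⟩, h1⟩
      exact ⟨j, h1, h2⟩
  have hV : insert x A ∪ al (fun j => (U j).erase x) = A ∪ al U := by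
    ext u
    rw [mem_union, mem_union, mem_insert, hal]
    constructor
    · rintro ((rfl | h) | h)
      · exact Or.inr (mem_al.2 ⟨i, hx⟩)
      · exact Or.inl h
      · exact Or.inr h.1
    · rintro (h | h)
      · exact Or.inl (Or.inr h)
      · by_cases e : u = x
        · exact Or.inl (Or.inl e)
        · exact Or.inr ⟨h, e⟩
  refine ⟨⟨?_, ?_, ?_, ?_, ?_, ?_, ?_⟩, ?_⟩
  · intro j u hu h
    rw [mem_erase] at hu
    rcases mem_insert.1 h with h | h
    · exact hu.1 h
    · exact I.disjA j u hu.2 h
  · intro j k u h1 h2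
    exact I.disj j k u (mem_erase.1 h1).2 (mem_erase.1 h2).2
  · rw [hV]; exact I.mat0
  · intro m hm
    rw [hV]; exact I.mat m hm
  · intro m hm j u hu hmu
    rw [mem_insert, not_or] at hmu
    exact mem_erase.2 ⟨hmu.1, I.cls m hm j u (mem_erase.1 hu).2 hmu.2⟩
  · intro f hf hag
    obtain ⟨m, hm, hm1, hm2⟩ := I.mix f hf
      (fun j k a ha => hag j k a (mem_insert_of_mem ha))
    refine ⟨m, hm, fun j u hu => hm1 j u (mem_erase.1 hu).2, ?_⟩
    intro j a ha
    rcases mem_insert.1 ha with rfl | ha
    · rw [hm1 i a hx]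
      exact hag i j a (mem_insert_self _ _)
    · exact hm2 j a ha
  · intro m hm u hu w hw
    rw [hV] at hu hw
    exact I.conn m hm u hu w hw
  · have hsub : mx m0 U ⊆ insert x (insert (m0 x) (mx m0 (fun j => (U j).erase x))) := by
      intro u hu
      rw [mem_insert, mem_insert]
      by_cases h1 : u = x
      · exact Or.inl h1
      by_cases h2 : u = m0 x
      · exact Or.inr (Or.inl h2)
      right; right
      simp only [mx, mem_filter] at hu ⊢
      obtain ⟨g1, g2, g3⟩ := hu
      have h6 : m0 u ≠ x := fun e => h2 (by rw [← e, I.mat0.inv])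
      rw [hal, hal]
      exact ⟨⟨g1, h1⟩, ⟨g2, h6⟩, fun j hj h => g3 j (mem_erase.1 hj).2 (mem_erase.1 h).2⟩
    calc (mx m0 U).card ≤ _ := card_le_card hsub
      _ ≤ (insert (m0 x) (mx m0 (fun j => (U j).erase x))).card + 1 := card_insert_le _ _
      _ ≤ ((mx m0 (fun j => (U j).erase x)).card + 1) + 1 :=
        Nat.add_le_add_right (card_insert_le _ _) 1

end abstract

end Pool.Agent.MonCnt
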