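/-
MP_18d1ca_lc: counting circuits; the bound for semi-instances.
-/
import Pool.Agent.MonCnt.M1
import Pool.Agent.MonCyc.Main

set_option linter.all false

namespace Pool.Agent.MonCnt

open Finset Equiv MonCyc

section abstract

variable {α : Type*} [DecidableEq α] [Fintype α]

/-- the restriction of a matching to a class -/
def rs (W : Finset α) (m : α → α) : α → α := fun u => if u ∈ W then m u else u

theorem mx_empty {m0 : α → α} {U : Fin 3 → Finset α} (h : IsMat (al U) m0) : mx m0 U = mixed m0 U := by
  ext u
  simp only [mx, mixed, mem_filter]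
  constructor
  · rintro ⟨h1, _, h2⟩
    exact ⟨h1, h2⟩
  · rintro ⟨h1, h2⟩
    exact ⟨h1, h.map_mem h1, h2⟩

theorem even_mixed {m0 : α → α} {U : Fin 3 → Finset α} (hd : ∀ i j u, u ∈ U i → u ∈ U j → i = j)
    (h : IsMat (al U) m0) : 2 ∣ (mixed m0 U).card := by
  have h1 : ∑ u ∈ mixed m0 U, (1 : ZMod 2) = 0 := by
    refine sum_involution (fun u _ => m0 u) ?_ ?_ ?_ ?_
    · intro u _
      decide
    · intro u hu _ e
      exact h.ne (mem_filter.1 hu).1 e
    · intro u hu
      obtain ⟨g1, g2⟩ := mem_filter.1 hu
      refine mem_filter.2 ⟨h.map_mem g1, fun i hi hi' => ?_⟩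
      rw [h.inv] at hi'
      exact g2 i hi' hi
    · intro u _
      exact h.inv u
  rw [sum_const, nsmul_eq_mul, mul_one] at h1
  exact (ZMod.natCast_eq_zero_iff _ _).1 h1

theorem si_base {m0 : α → α} {U : Fin 3 → Finset α} {F : Finset (α → α)}
    (I : SI m0 ∅ U F) {n : ℕ} (hc : (al U).card = 2 * n) (hU : ∀ i, (U i).card ≤ n + 2) :
    F.card * 2 ^ ((mx m0 U).card / 2) ≤ 2 * n.factorial := by
  have hmat : ∀ m ∈ F, IsMat (al U) m := by
    intro m hm
    have := I.mat m hm
    rwa [empty_union] at this
  have hmat0 : IsMat (al U) m0 := by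
    have := I.mat0
    rwa [empty_union] at this
  have hcls : ∀ m ∈ F, ∀ i, ∀ u ∈ U i, m u ∈ U i := fun m hm i u hu => I.cls m hm i u hu (notMem_empty _)
  have hI : Inst m0 U (fun i => F.image (rs (U i))) := by
    refine ⟨I.disj, hmat0, ?_, ?_⟩
    · intro i m hm
      obtain ⟨f, hf, rfl⟩ := mem_image.1 hm
      constructor
      · intro u
        by_cases hu : u ∈ U i
        · simp only [rs, if_pos hu, if_pos (hcls f hf i u hu), (hmat f hf).inv]
        · simp only [rs, if_neg hu]
      · intro u
        by_cases hu : u ∈ U i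
        · simp only [rs, if_pos hu, hu, iff_true]
          exact (hmat f hf).ne (mem_al.2 ⟨i, hu⟩)
        · simp [rs, hu]
    · intro f' hf' u hu w hw
      choose f hf1 hf2 using fun i => mem_image.1 (hf' i)
      obtain ⟨m, hm, h1, _⟩ := I.mix f hf1 (fun i j a ha => absurd ha (notMem_empty a))
      have hc := I.conn m hm u (by rw [empty_union]; exact hu) w (by rw [empty_union]; exact hw)
      have key : ∀ v, Rc m0 m u v → Reach m0 f' u v := by
        intro v hv
        induction hv with
        | refl => exact Relation.ReflTransGen.refl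
        | @tail b c hb hc ih =>
          rcases hc with rfl | rfl
          · exact ih.tail (Or.inl rfl)
          · by_cases hbU : b ∈ al U
            · obtain ⟨i, hi⟩ := mem_al.1 hbU
              refine ih.tail (Or.inr ⟨i, ?_⟩)
              rw [← hf2 i]
              simp only [rs, if_pos hi]
              exact h1 i b hi
            · rw [(hmat m hm).fix hbU]
              exact ih
      exact key w hc
  have hcard : F.card ≤ ∏ i, (F.image (rs (U i))).card := by
    rw [← Fintype.card_piFinset]
    refine card_le_card_of_injOn (fun f i => rs (U i) f) ?_ ?_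
    · intro f hf
      rw [Fintype.coe_piFinset]
      intro i _
      exact mem_coe.2 (mem_image_of_mem _ hf)
    · intro f hf g hg e
      funext u
      by_cases hu : u ∈ al U
      · obtain ⟨i, hi⟩ := mem_al.1 hu
        have h1 := congrFun (congrFun e i) u
        simpa only [rs, if_pos hi] using h1
      · rw [(hmat f hf).fix hu, (hmat g hg).fix hu]
  rw [mx_empty hmat0]
  obtain ⟨k, hk⟩ := even_mixed I.disj hmat0
  have h1 := bound n m0 U _ hI k hc hk (fun i _ => hU i)
  rw [hk, Nat.mul_div_cancel_left k (by norm_num : 0 < 2)]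
  exact (Nat.mul_le_mul_right _ hcard).trans h1

/-- the sum over the partners of a port -/
theorem card_expand {F : Finset (α → α)} {a : α} {T : Finset α} (h : ∀ m ∈ F, m a ∈ T) {B c : ℕ}
    (hB : ∀ b ∈ T, (F.filter (fun m => m a = b)).card * c ≤ B) : F.card * c ≤ T.card * B := by
  have h1 : F.card = ∑ b ∈ T, (F.filter (fun m => m a = b)).card :=
    card_eq_sum_card_fiberwise (fun m hm => h m hm)
  rw [h1, sum_mul]
  calc ∑ b ∈ T, (F.filter (fun m => m a = b)).card * c ≤ ∑ b ∈ T, B := sum_le_sum hB
    _ = T.card * B := by rw [sum_const, smul_eq_mul]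

theorem pow_half {x y : ℕ} (h : x ≤ y + 2) : 2 ^ (x / 2) ≤ 2 * 2 ^ (y / 2) := by
  rw [← pow_succ']
  exact Nat.pow_le_pow_right (by norm_num) (by omega)

section step

variable {m0 : α → α} {A : Finset α} {U : Fin 3 → Finset α} {F : Finset (α → α)} (I : SI m0 A U F)

include I

/-- the bound for one partner -/
theorem si_step {a b : α} (ha : a ∈ A) (hb : b ∈ A ∪ al U) (hab : b ≠ a) (hne : b ≠ m0 a) {B : ℕ}
    (h : ((F.filter (fun m => m a = b)).image (rem a b)).card *
      2 ^ ((mx (spl m0 a b) (U' U a b)).card / 2) ≤ B) :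
    (F.filter (fun m => m a = b)).card * 2 ^ ((mx m0 U).card / 2) ≤ 2 * B := by
  rw [si_card_image I ha hb] at h
  calc (F.filter (fun m => m a = b)).card * 2 ^ ((mx m0 U).card / 2)
      ≤ (F.filter (fun m => m a = b)).card * (2 * 2 ^ ((mx (spl m0 a b) (U' U a b)).card / 2)) :=
        Nat.mul_le_mul_left _ (pow_half (si_mx I ha hb hab hne))
    _ = 2 * ((F.filter (fun m => m a = b)).card * 2 ^ ((mx (spl m0 a b) (U' U a b)).card / 2)) := by ring
    _ ≤ 2 * B := Nat.mul_le_mul_left _ h

/-- two ports only -/
theorem si_small (h : (A ∪ al U).card ≤ 2) : F.card * 2 ^ ((mx m0 U).card / 2) ≤ 2 := by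
  have h1 : F.card ≤ 1 := by
    rw [Finset.card_le_one]
    intro m hm m1 hm1
    have h1 := I.mat m hm
    have h2 := I.mat m1 hm1
    funext u
    by_cases hu : u ∈ A ∪ al U
    · have h3 : ((A ∪ al U).erase u).card ≤ 1 := by
        rw [card_erase_of_mem hu]
        omega
      rw [Finset.card_le_one] at h3
      exact h3 _ (mem_erase.2 ⟨h1.ne hu, h1.map_mem hu⟩) _ (mem_erase.2 ⟨h2.ne hu, h2.map_mem hu⟩)
    · rw [h1.fix hu, h2.fix hu]
  have h2 : (mx m0 U).card ≤ 2 :=
    (card_le_card ((filter_subset _ _).trans subset_union_right)).trans h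
  have h3 : 2 ^ ((mx m0 U).card / 2) ≤ 2 ^ 1 := Nat.pow_le_pow_right (by norm_num) (by omega)
  calc _ ≤ 1 * 2 ^ 1 := Nat.mul_le_mul h1 h3
    _ = 2 := by norm_num

end step

theorem card_contract {A : Finset α} {U : Fin 3 → Finset α} {a b : α} (ha : a ∈ A) (hb : b ∈ A ∪ al U)
    (hab : b ≠ a) {n : ℕ} (hc : (A ∪ al U).card = 2 * (n + 1)) :
    (A \ {a, b} ∪ al (U' U a b)).card = 2 * n := by
  have h1 : A \ {a, b} ∪ al (U' U a b) = (A ∪ al U) \ {a, b} := by
    rw [al_U', union_sdiff_distrib]
  rw [h1, card_sdiff_of_subset, hc, card_pair hab.symm]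
  · omega
  · intro u hu
    simp only [mem_insert, mem_singleton] at hu
    rcases hu with rfl | rfl
    · exact mem_union_left _ ha
    · exact hb

theorem card_sdiff_lt {A : Finset α} {a b : α} (ha : a ∈ A) : (A \ {a, b}).card + 1 ≤ A.card := by
  have h1 : A \ {a, b} ⊆ A.erase a := by
    intro u hu
    simp only [mem_sdiff, mem_insert, mem_singleton, not_or] at hu
    exact mem_erase.2 ⟨hu.2.1, hu.1⟩
  have h2 := card_le_card h1
  rw [card_erase_of_mem ha] at h2
  have h3 : 0 < A.card := card_pos.2 ⟨a, ha⟩
  omega

theorem card_U'_le (U : Fin 3 → Finset α) (a b : α) (i : Fin 3) : (U' U a b i).card ≤ (U i).card :=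
  card_le_card sdiff_subset

theorem si_bound (n : ℕ) : ∀ (s : ℕ) (m0 : α → α) (A : Finset α) (U : Fin 3 → Finset α)
    (F : Finset (α → α)), SI m0 A U F → (A ∪ al U).card = 2 * n →
    (∀ i, (U i).card ≤ n + 2 + s) →
    F.card * 2 ^ ((mx m0 U).card / 2) ≤ 2 * n.factorial * 32 ^ A.card * 8 ^ s := by
  induction n with
  | zero =>
    intro s m0 A U F I hc hU
    refine (si_small I (by omega)).trans ?_
    have h1 : 1 ≤ 32 ^ A.card := Nat.one_le_pow _ _ (by norm_num)
    have h2 : 1 ≤ 8 ^ s := Nat.one_le_pow _ _ (by norm_num)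
    have h3 : 1 ≤ 32 ^ A.card * 8 ^ s := Nat.mul_pos h1 h2
    simp only [Nat.factorial_zero, mul_one]
    rw [mul_assoc]
    exact Nat.le_mul_of_pos_right 2 h3
  | succ n ih =>
    intro s m0 A U F I hc hU
    have q1 : 1 ≤ 32 ^ A.card := Nat.one_le_pow _ _ (by norm_num)
    have q2 : 1 ≤ 8 ^ s := Nat.one_le_pow _ _ (by norm_num)
    by_cases hA : A = ∅
    · subst hA
      rw [card_empty, pow_zero, mul_one]
      by_cases hB : ∀ i, (U i).card ≤ n + 1 + 2
      · have h1 := si_base I (n := n + 1) (by rw [empty_union] at hc; exact hc) hB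
        exact h1.trans (Nat.le_mul_of_pos_right _ q2)
      · push Not at hB
        obtain ⟨i, hi⟩ := hB
        obtain ⟨x, hx⟩ : (U i).Nonempty := by
          rw [← card_pos]
          omega
        obtain ⟨I', hmx⟩ := si_move I hx
        obtain ⟨s, rfl⟩ : ∃ s', s = s' + 1 := ⟨s - 1, by have := hU i; omega⟩
        have hUe : (fun j => (U j).erase x) i = (U i).erase x := rfl
        have hxA : x ∈ insert x (∅ : Finset α) := mem_insert_self _ _
        have hcov : insert x ∅ ∪ al (fun j => (U j).erase x) = al U := by
          ext u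
          simp only [insert_empty_eq, mem_union, mem_singleton, mem_al, mem_erase]
          constructor
          · rintro (rfl | ⟨j, h1, h2⟩)
            · exact ⟨i, hx⟩
            · exact ⟨j, h2⟩
          · rintro ⟨j, h1⟩
            by_cases hu : u = x
            · exact Or.inl hu
            · exact Or.inr ⟨j, hu, h1⟩
        rw [empty_union] at hc
        have hc' : (insert x ∅ ∪ al (fun j => (U j).erase x)).card = 2 * (n + 1) := by rw [hcov, hc]
        have hsz : ∀ j, j ≠ i → (U j).card + (U i).card ≤ 2 * (n + 1) := by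
          intro j hj
          rw [← hc, ← card_union_of_disjoint]
          · exact card_le_card (union_subset (fun u hu => mem_al.2 ⟨j, hu⟩) (fun u hu => mem_al.2 ⟨i, hu⟩))
          · rw [disjoint_left]
            intro u h1 h2
            exact hj (I.disj _ _ _ h1 h2)
        have hUi : (U i).card ≤ 2 * (n + 1) := by
          rw [← hc]
          exact card_U_le U i
        have hterm : ∀ b ∈ (U i).erase x, (F.filter (fun m => m x = b)).card * 2 ^ ((mx m0 U).card / 2) ≤
            2 * (2 * (2 * n.factorial * 8 ^ s)) := by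
          intro b hb
          rcases Nat.eq_zero_or_pos (F.filter (fun m => m x = b)).card with h0 | hpos
          · rw [h0, zero_mul]
            exact Nat.zero_le _
          obtain ⟨m, hm⟩ := card_pos.1 hpos
          obtain ⟨hm, hmb⟩ := mem_filter.1 hm
          have hbal : b ∈ al (fun j => (U j).erase x) := mem_al.2 ⟨i, hb⟩
          have hne : b ≠ m0 x := by
            intro e
            have h1 := si_two I' hxA hm (hmb.trans e)
            rw [h1] at hc'
            have h2 : ({x, m0 x} : Finset α).card ≤ 2 := card_le_two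
            omega
          have hbx : b ≠ x := (mem_erase.1 hb).1
          have hA' : insert x ∅ \ {x, b} = (∅ : Finset α) := by
            ext u
            simp
            tauto
          have I2 := si_contract I' hxA (mem_union_right _ hbal) hbx hne
          have hcc := card_contract hxA (mem_union_right _ hbal) hbx hc'
          have h1 := ih s _ _ _ _ I2 hcc ?_
          · rw [hA', card_empty, pow_zero, mul_one] at h1
            have h2 := si_step I' hxA (mem_union_right _ hbal) hbx hne h1
            calc (F.filter (fun m => m x = b)).card * 2 ^ ((mx m0 U).card / 2)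
                ≤ (F.filter (fun m => m x = b)).card *
                  (2 * 2 ^ ((mx m0 (fun j => (U j).erase x)).card / 2)) :=
                  Nat.mul_le_mul_left _ (pow_half hmx)
              _ = 2 * ((F.filter (fun m => m x = b)).card *
                  2 ^ ((mx m0 (fun j => (U j).erase x)).card / 2)) := by ring
              _ ≤ _ := Nat.mul_le_mul_left _ h2
          · intro j
            by_cases hj : j = i
            · subst hj
              have h2 : U' (fun j => (U j).erase x) x b j ⊆ ((U j).erase x).erase b := by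
                intro u hu
                simp only [U', mem_sdiff, mem_insert, mem_singleton, not_or] at hu
                exact mem_erase.2 ⟨hu.2.2, hu.1⟩
              have h3 := card_le_card h2
              rw [card_erase_of_mem hb, card_erase_of_mem hx] at h3
              have h4 := hU j
              omega
            · have h2 := card_U'_le (fun j => (U j).erase x) x b j
              have h3 := card_le_card (erase_subset x (U j))
              have h4 := hsz j hj
              omega
        have hmap : ∀ m ∈ F, m x ∈ (U i).erase x := by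
          intro m hm
          have h1 : IsMat (al U) m := by
            have := I.mat m hm
            rwa [empty_union] at this
          exact mem_erase.2 ⟨h1.ne (mem_al.2 ⟨i, hx⟩), I.cls m hm i x hx (notMem_empty _)⟩
        have h1 := card_expand hmap hterm
        refine h1.trans ?_
        have h2 : ((U i).erase x).card ≤ 2 * (n + 1) := (card_le_card (erase_subset _ _)).trans hUi
        calc ((U i).erase x).card * (2 * (2 * (2 * n.factorial * 8 ^ s)))
            ≤ (2 * (n + 1)) * (2 * (2 * (2 * n.factorial * 8 ^ s))) := Nat.mul_le_mul_right _ h2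
          _ = 2 * (n + 1).factorial * 8 ^ (s + 1) := by
            rw [Nat.factorial_succ, pow_succ]
            ring
    · obtain ⟨a, ha⟩ := nonempty_iff_ne_empty.2 hA
      by_cases hn : n = 0
      · subst hn
        refine (si_small I (by omega)).trans ?_
        have h3 : 1 ≤ 32 ^ A.card * 8 ^ s := Nat.mul_pos q1 q2
        rw [Nat.factorial_succ, Nat.factorial_zero, mul_assoc]
        exact Nat.le_mul_of_pos_right 2 h3
      · have hterm : ∀ b ∈ A ∪ al U, (F.filter (fun m => m a = b)).card * 2 ^ ((mx m0 U).card / 2) ≤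
            2 * (2 * n.factorial * 32 ^ (A.card - 1) * 8 ^ (s + 1)) := by
          intro b hb
          rcases Nat.eq_zero_or_pos (F.filter (fun m => m a = b)).card with h0 | hpos
          · rw [h0, zero_mul]
            exact Nat.zero_le _
          obtain ⟨m, hm⟩ := card_pos.1 hpos
          obtain ⟨hm, hmb⟩ := mem_filter.1 hm
          have hba : b ≠ a := by
            rw [← hmb]
            exact (I.mat m hm).ne (mem_union_left _ ha)
          have hne : b ≠ m0 a := by
            intro e
            have h1 := si_two I ha hm (hmb.trans e)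
            rw [h1] at hc
            have h2 : ({a, m0 a} : Finset α).card ≤ 2 := card_le_two
            omega
          have h1 := ih (s + 1) _ _ _ _ (si_contract I ha hb hba hne) (card_contract ha hb hba hc) (by
            intro j
            have h2 := card_U'_le U a b j
            have h3 := hU j
            omega)
          refine si_step I ha hb hba hne (h1.trans ?_)
          refine Nat.mul_le_mul_right _ (Nat.mul_le_mul_left _ (Nat.pow_le_pow_right (by norm_num) ?_))
          have := card_sdiff_lt (b := b) ha
          omega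
        have hmap : ∀ m ∈ F, m a ∈ A ∪ al U := fun m hm => (I.mat m hm).map_mem (mem_union_left _ ha)
        have h1 := card_expand hmap hterm
        refine h1.trans (le_of_eq ?_)
        obtain ⟨r, hr⟩ : ∃ r, A.card = r + 1 := ⟨A.card - 1, by have := card_pos.2 ⟨a, ha⟩; omega⟩
        rw [hc, hr, Nat.add_sub_cancel, Nat.factorial_succ, pow_succ, pow_succ]
        ring

/-- the bound with forced edges -/
theorem forced_bound {V : Type*} [DecidableEq V] (π : α → V)
    (hπ : ∀ x, (univ.filter (fun a => π a = x)).card ≤ 2) (Q : Finset (Sym2 V)) :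
    ∀ (n s : ℕ) (m0 : α → α) (A : Finset α) (U : Fin 3 → Finset α) (F : Finset (α → α)),
    SI m0 A U F → (A ∪ al U).card = 2 * n → (∀ i, (U i).card ≤ n + 2 + s) →
    (∀ m ∈ F, ∀ e ∈ Q, ∃ a ∈ A, s(π a, π (m a)) = e) →
    F.card * 2 ^ ((mx m0 U).card / 2) ≤
      2 * (n - Q.card).factorial * 32 ^ A.card * 8 ^ s * 4 ^ Q.card := by
  induction Q using Finset.induction_on with
  | empty =>
    intro n s m0 A U F I hc hU _
    have h1 := si_bound n s m0 A U F I hc hU
    simpa using h1
  | insert e Q he ih =>
    intro n s m0 A U F I hc hU hQ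
    have q1 : 1 ≤ 32 ^ A.card := Nat.one_le_pow _ _ (by norm_num)
    have q2 : 1 ≤ 8 ^ s := Nat.one_le_pow _ _ (by norm_num)
    have q3 : 1 ≤ 4 ^ (insert e Q).card := Nat.one_le_pow _ _ (by norm_num)
    have q4 : 1 ≤ (n - (insert e Q).card).factorial := Nat.factorial_pos _
    have hsm : (A ∪ al U).card ≤ 2 → F.card * 2 ^ ((mx m0 U).card / 2) ≤
        2 * (n - (insert e Q).card).factorial * 32 ^ A.card * 8 ^ s * 4 ^ (insert e Q).card := by
      intro h
      refine (si_small I h).trans ?_
      calc 2 = 2 * 1 * 1 * 1 * 1 := by norm_num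
        _ ≤ _ := Nat.mul_le_mul (Nat.mul_le_mul (Nat.mul_le_mul (Nat.mul_le_mul_left 2 q4) q1) q2) q3
    obtain ⟨n, hn⟩ : ∃ k, n = k := ⟨n, rfl⟩
    subst hn
    by_cases hn1 : (A ∪ al U).card ≤ 2
    · exact hsm hn1
    obtain ⟨n, rfl⟩ : ∃ k, n = k + 1 := ⟨n - 1, by omega⟩
    -- the pairs which realise the edge
    obtain ⟨P, hP⟩ : ∃ P : Finset (α × α), P = univ.filter (fun p => s(π p.1, π p.2) = e) := ⟨_, rfl⟩
    have hPc : P.card ≤ 8 := by
      induction e using Sym2.ind with
      | _ x y =>
        have h1 : P ⊆ (univ.filter (fun a => π a = x)) ×ˢ (univ.filter (fun a => π a = y)) ∪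
            (univ.filter (fun a => π a = y)) ×ˢ (univ.filter (fun a => π a = x)) := by
          intro p hp
          rw [hP, mem_filter, Sym2.eq_iff] at hp
          simp only [mem_union, mem_product, mem_filter, mem_univ, true_and]
          exact hp.2
        have h2 := (card_le_card h1).trans (card_union_le _ _)
        rw [card_product, card_product] at h2
        have h3 : (univ.filter (fun a => π a = x)).card * (univ.filter (fun a => π a = y)).card ≤ 2 * 2 :=
          Nat.mul_le_mul (hπ x) (hπ y)
        have h4 : (univ.filter (fun a => π a = y)).card * (univ.filter (fun a => π a = x)).card ≤ 2 * 2 :=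
          Nat.mul_le_mul (hπ y) (hπ x)
        omega
    obtain ⟨P', hP'⟩ : ∃ P' : Finset (α × α), P' = P.filter (fun p => p.1 ∈ A ∧ p.2 ∈ A ∪ al U) := ⟨_, rfl⟩
    have hP'c : P'.card ≤ 8 := (card_le_card (by rw [hP']; exact filter_subset _ _)).trans hPc
    have hcov : F ⊆ P'.biUnion (fun p => F.filter (fun m => m p.1 = p.2)) := by
      intro m hm
      obtain ⟨a, ha, hae⟩ := hQ m hm e (mem_insert_self _ _)
      refine mem_biUnion.2 ⟨(a, m a), ?_, mem_filter.2 ⟨hm, rfl⟩⟩
      rw [hP', hP]
      exact mem_filter.2 ⟨mem_filter.2 ⟨mem_univ _, hae⟩, ha, (I.mat m hm).map_mem (mem_union_left _ ha)⟩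
    have hterm : ∀ p ∈ P', (F.filter (fun m => m p.1 = p.2)).card * 2 ^ ((mx m0 U).card / 2) ≤
        2 * (2 * (n - Q.card).factorial * 32 ^ (A.card - 1) * 8 ^ (s + 1) * 4 ^ Q.card) := by
      rintro ⟨a, b⟩ hp
      rw [hP', hP, mem_filter, mem_filter] at hp
      obtain ⟨⟨-, hpe⟩, ha, hb⟩ := hp
      simp only at hpe ha hb ⊢
      rcases Nat.eq_zero_or_pos (F.filter (fun m => m a = b)).card with h0 | hpos
      · rw [h0, zero_mul]
        exact Nat.zero_le _
      obtain ⟨m, hm⟩ := card_pos.1 hpos
      obtain ⟨hm, hmb⟩ := mem_filter.1 hm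
      have hba : b ≠ a := by
        rw [← hmb]
        exact (I.mat m hm).ne (mem_union_left _ ha)
      have hne : b ≠ m0 a := by
        intro e
        have h1 := si_two I ha hm (hmb.trans e)
        rw [h1] at hn1
        exact hn1 card_le_two
      have h1 := ih n (s + 1) _ _ _ _ (si_contract I ha hb hba hne) (card_contract ha hb hba hc) (by
        intro j
        have h2 := card_U'_le U a b j
        have h3 := hU j
        omega) (by
        intro m' hm' e' he'
        obtain ⟨m1, hm1, rfl⟩ := mem_image.1 hm'
        obtain ⟨hm1F, hm1b⟩ := mem_filter.1 hm1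
        obtain ⟨a', ha', hae'⟩ := hQ m1 hm1F e' (mem_insert_of_mem he')
        have hee : e' ≠ e := fun h => he (h ▸ he')
        have h2 : a' ≠ a := by
          rintro rfl
          rw [hm1b] at hae'
          exact hee (hae'.symm.trans hpe)
        have h3 : a' ≠ b := by
          rintro rfl
          have h4 : m1 a' = a := by
            rw [← hm1b]
            exact (I.mat m1 hm1F).inv a
          rw [h4, Sym2.eq_swap] at hae'
          exact hee (hae'.symm.trans hpe)
        refine ⟨a', ?_, ?_⟩
        · simp only [mem_sdiff, mem_insert, mem_singleton, not_or]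
          exact ⟨ha', h2, h3⟩
        · simp only [rem]
          rw [if_neg (by tauto)]
          exact hae')
      refine si_step I ha hb hba hne (h1.trans ?_)
      refine Nat.mul_le_mul_right _ (Nat.mul_le_mul_right _ (Nat.mul_le_mul_left _
        (Nat.pow_le_pow_right (by norm_num) ?_)))
      have := card_sdiff_lt (b := b) ha
      omega
    rcases A.eq_empty_or_nonempty with hA | ⟨a, ha⟩
    · -- no free port: the family is empty
      have hF : F = ∅ := by
        rw [eq_empty_iff_forall_notMem]
        intro m hm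
        obtain ⟨a, ha, _⟩ := hQ m hm e (mem_insert_self _ _)
        rw [hA] at ha
        exact notMem_empty _ ha
      rw [hF, card_empty, zero_mul]
      exact Nat.zero_le _
    obtain ⟨r, hr⟩ : ∃ r, A.card = r + 1 := ⟨A.card - 1, by have := card_pos.2 ⟨a, ha⟩; omega⟩
    calc F.card * 2 ^ ((mx m0 U).card / 2)
        ≤ (∑ p ∈ P', (F.filter (fun m => m p.1 = p.2)).card) * 2 ^ ((mx m0 U).card / 2) :=
          Nat.mul_le_mul_right _ ((card_le_card hcov).trans card_biUnion_le)
      _ = ∑ p ∈ P', (F.filter (fun m => m p.1 = p.2)).card * 2 ^ ((mx m0 U).card / 2) := sum_mul _ _ _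
      _ ≤ ∑ p ∈ P', 2 * (2 * (n - Q.card).factorial * 32 ^ (A.card - 1) * 8 ^ (s + 1) * 4 ^ Q.card) :=
          sum_le_sum hterm
      _ = P'.card * (2 * (2 * (n - Q.card).factorial * 32 ^ (A.card - 1) * 8 ^ (s + 1) * 4 ^ Q.card)) := by
          rw [sum_const, smul_eq_mul]
      _ ≤ 8 * (2 * (2 * (n - Q.card).factorial * 32 ^ (A.card - 1) * 8 ^ (s + 1) * 4 ^ Q.card)) :=
          Nat.mul_le_mul_right _ hP'c
      _ = 2 * (n + 1 - (insert e Q).card).factorial * 32 ^ A.card * 8 ^ s * 4 ^ (insert e Q).card := by
          rw [card_insert_of_notMem he, hr, Nat.add_sub_cancel, Nat.add_sub_add_right, pow_succ, pow_succ, pow_succ]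
          ring

end abstract

end Pool.Agent.MonCnt
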