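/-
MP_18d1ca_lc: counting circuits; M6: the bound for one family of port matchings.
-/
import Pool.Agent.MonCnt.FamSI
import Pool.Agent.MonCnt.CardU
import Pool.Agent.MonCnt.M3

set_option linter.all false

namespace Pool.Agent.MonCnt

open Finset Equiv MonCyc

variable {V : Type*} [DecidableEq V] [Fintype V]

/-- bound for one family -/
theorem fam_bound {P : Fin 3 → Set (Finset (Sym2 V))} {T : Finset V} {p p' : V → Sym2 V}
    (B : PBox P T p p') (hV : 3 ≤ Fintype.card V) {σ0 : Perm V} (h0 : Full σ0)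
    {q0 : Fin 3 → Finset (Sym2 V)} (hq0 : ∀ i, q0 i ∈ P i) (he0 : ed σ0 = un q0)
    (h1 : 2 * (q0 0).card ≤ Fintype.card V) (h2 : 2 * (q0 1).card ≤ Fintype.card V)
    (h3 : Fintype.card V < 2 * (q0 0 ∪ q0 1).card) {c : V × Bool → Fin 3}
    (hc : ∀ w, w.1 ∉ T → c w = ac q0 σ0 w) {Q : Finset (Sym2 V)}
    (hQ : ∀ e ∈ Q, ∃ x ∈ T, x ∈ e) :
    (Fam P c Q).card * 2 ^ (univ.filter (fun u => u ∉ T ∧ c (u, true) ≠ c (u, false))).card ≤
      2 * (Fintype.card V - Q.card).factorial * 32 ^ (2 * T.card) * 4 ^ Q.card := by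
  have h := forced_bound (Prod.fst : V × Bool → V) (fun x => m6_fiber x) Q (Fintype.card V) 0
    fl (Ap T) (Uc c T) (Fam P c Q) (fam_SI B c hQ) (by rw [m6_univ, m6_card_univ])
    (fun i => by
      have := card_Uc B hV h0 hq0 he0 h1 h2 h3 hc i
      omega) (m6_forced c hQ)
  rw [card_mx, m6_card_Ap, Nat.mul_div_cancel_left _ (by norm_num : 0 < 2), pow_zero, mul_one] at h
  exact h

end Pool.Agent.MonCnt
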