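/-
MP_18d1ca_lc: the Hamiltonian cycles of a purified box inject into port matchings.
-/
import Pool.Agent.MonCnt.Defs

set_option linter.all false

namespace Pool.Agent.MonCnt

open Finset Equiv MonCyc

section cycles

variable {V : Type*} [DecidableEq V] [Fintype V]

theorem m7_ae_mem (σ : Perm V) (w : V × Bool) : ae σ w ∈ ed σ := by
  obtain ⟨u, b⟩ := w
  simp only [ed, mem_image, mem_univ, true_and]
  cases b
  · refine ⟨σ⁻¹ u, ?_⟩
    simp only [ae, ms, Bool.false_eq_true, if_false]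
    rw [ap_inv, Sym2.eq_swap]
  · exact ⟨u, by simp only [ae, ms, if_true]⟩

theorem m7_ed_mem {σ : Perm V} {e : Sym2 V} (he : e ∈ ed σ) : ∃ u, ae σ (u, true) = e := by
  simp only [ed, mem_image, mem_univ, true_and] at he
  obtain ⟨u, hu⟩ := he
  exact ⟨u, by simpa only [ae, ms, if_true] using hu⟩

theorem m7_ae_ms (σ : Perm V) (w : V × Bool) : ae σ (ms σ w) = ae σ w := by
  simp only [ae, ms_ms]
  exact Sym2.eq_swap

theorem m7_ac_ms (q : Fin 3 → Finset (Sym2 V)) (σ : Perm V) (w : V × Bool) :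
    ac q σ (ms σ w) = ac q σ w := by
  simp only [ac, m7_ae_ms]

theorem m7_ac_mem {q : Fin 3 → Finset (Sym2 V)} {σ : Perm V} (he : ed σ = un q) (w : V × Bool) :
    ae σ w ∈ q (ac q σ w) := by
  have h : ∃ i, ae σ w ∈ q i := by
    rw [← mem_un, ← he]; exact m7_ae_mem σ w
  rw [ac, dif_pos h]
  exact h.choose_spec

theorem m7_st {σ : Perm V} (x : V) : st x (ed σ) = {ae σ (x, true), ae σ (x, false)} := by
  ext e
  simp only [mem_st, mem_insert, mem_singleton]
  constructor
  · rintro ⟨h1, h2⟩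
    obtain ⟨u, rfl⟩ := m7_ed_mem h1
    simp only [ae, ms, if_true, Sym2.mem_iff] at h2
    rcases h2 with rfl | rfl
    · left; rfl
    · right
      simp only [ae, ms, if_true, Bool.false_eq_true, if_false]
      rw [inv_ap, Sym2.eq_swap]
  · rintro (rfl | rfl)
    · exact ⟨m7_ae_mem _ _, by simp [ae]⟩
    · exact ⟨m7_ae_mem _ _, by simp [ae]⟩

theorem m7_ae_ne {σ : Perm V} (h : Full σ) (hV : 3 ≤ Fintype.card V) (x : V) :
    ae σ (x, true) ≠ ae σ (x, false) := by
  intro e
  simp only [ae, ms, if_true, Bool.false_eq_true, if_false] at e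
  have e1 : σ x = σ⁻¹ x := by
    rw [Sym2.eq_iff] at e
    rcases e with ⟨_, h2⟩ | ⟨h1, h2⟩
    · exact h2
    · rw [h2]; exact h1
  apply h.ne2 hV x
  rw [e1, ap_inv]

/-- the number of edges of class `i` at a vertex outside `T` does not depend on the member -/
theorem m7_deg {P : Fin 3 → Set (Finset (Sym2 V))} {T : Finset V} {p p' : V → Sym2 V}
    (B : PBox P T p p') {x : V} (hx : x ∉ T) {q q0 : Fin 3 → Finset (Sym2 V)}
    (hq : ∀ i, q i ∈ P i) (hq0 : ∀ i, q0 i ∈ P i) (i : Fin 3) :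
    (st x (q i)).card = (st x (q0 i)).card := by
  have hsum : ∀ r : Fin 3 → Finset (Sym2 V), (∀ i, r i ∈ P i) → ∑ j, (st x (r j)).card = 2 := by
    intro r hr
    rw [← B.pure_card x hx r hr]
    have : st x (un r) = univ.biUnion (fun j => st x (r j)) := by
      ext e
      simp only [mem_st, mem_un, mem_biUnion, mem_univ, true_and]
      constructor
      · rintro ⟨⟨j, h1⟩, h2⟩
        exact ⟨j, h1, h2⟩
      · rintro ⟨j, h1, h2⟩
        exact ⟨⟨j, h1⟩, h2⟩
    rw [this, card_biUnion]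
    intro j _ k _ hjk
    exact B.pure_disj x hx r hr j k hjk
  have hr : ∀ j, (Function.update q i (q0 i)) j ∈ P j := by
    intro j
    by_cases hj : j = i
    · subst hj; rw [Function.update_self]; exact hq0 j
    · rw [Function.update_of_ne hj]; exact hq j
  have h1 := hsum q hq
  have h2 := hsum _ hr
  rw [← add_sum_erase univ _ (mem_univ i)] at h1 h2
  rw [Function.update_self] at h2
  have h3 : ∑ j ∈ univ.erase i, (st x (Function.update q i (q0 i) j)).card =
      ∑ j ∈ univ.erase i, (st x (q j)).card := by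
    apply sum_congr rfl
    intro j hj
    rw [Function.update_of_ne (mem_erase.1 hj).1]
  omega

/-- the number of edges of class `i` at a vertex outside `T` in terms of the classes -/
theorem m7_deg_ac {P : Fin 3 → Set (Finset (Sym2 V))} {T : Finset V} {p p' : V → Sym2 V}
    (B : PBox P T p p') (hV : 3 ≤ Fintype.card V) {x : V} (hx : x ∉ T)
    {q : Fin 3 → Finset (Sym2 V)} (hq : ∀ i, q i ∈ P i) {σ : Perm V} (h : Full σ)
    (he : ed σ = un q) (i : Fin 3) :
    (st x (q i)).card = (if ac q σ (x, true) = i then 1 else 0) +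
      (if ac q σ (x, false) = i then 1 else 0) := by
  have hst := m7_st (σ := σ) x
  have hne := m7_ae_ne h hV x
  have huniq : ∀ b j, ae σ (x, b) ∈ q j → ac q σ (x, b) = j := by
    intro b j hj
    by_contra hc
    have hd := B.pure_disj x hx q hq _ _ hc
    rw [Finset.disjoint_left] at hd
    refine hd (a := ae σ (x, b)) ?_ ?_
    · rw [mem_st]; exact ⟨m7_ac_mem he (x, b), by simp [ae]⟩
    · rw [mem_st]; exact ⟨hj, by simp [ae]⟩
  have hmem : ∀ b j, ae σ (x, b) ∈ q j ↔ ac q σ (x, b) = j := by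
    intro b j
    constructor
    · exact huniq b j
    · rintro rfl; exact m7_ac_mem he (x, b)
  have hset : st x (q i) = (({ae σ (x, true), ae σ (x, false)} : Finset (Sym2 V))).filter
      (fun e => e ∈ q i) := by
    rw [← hst]
    ext e
    simp only [mem_st, mem_filter]
    constructor
    · rintro ⟨h1, h2⟩
      exact ⟨⟨by rw [he, mem_un]; exact ⟨i, h1⟩, h2⟩, h1⟩
    · rintro ⟨⟨_, h2⟩, h1⟩
      exact ⟨h1, h2⟩
  rw [hset, filter_insert, filter_singleton]
  simp only [hmem]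
  by_cases h1 : ac q σ (x, true) = i
  · by_cases h2 : ac q σ (x, false) = i
    · rw [if_pos h1, if_pos h2, if_pos h1, if_pos h2, card_pair hne]
    · rw [if_pos h1, if_neg h2, if_pos h1, if_neg h2]; simp
  · by_cases h2 : ac q σ (x, false) = i
    · rw [if_neg h1, if_pos h2, if_neg h1, if_pos h2]; simp
    · rw [if_neg h1, if_neg h2, if_neg h1, if_neg h2]; simp

theorem m7_cases {P : Fin 3 → Set (Finset (Sym2 V))} {T : Finset V} {p p' : V → Sym2 V}
    (B : PBox P T p p') (hV : 3 ≤ Fintype.card V) {x : V} (hx : x ∉ T)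
    {q q0 : Fin 3 → Finset (Sym2 V)} (hq : ∀ i, q i ∈ P i) (hq0 : ∀ i, q0 i ∈ P i)
    {σ σ0 : Perm V} (h : Full σ) (h0 : Full σ0) (he : ed σ = un q) (he0 : ed σ0 = un q0) :
    (ac q σ (x, true) = ac q0 σ0 (x, true) ∧ ac q σ (x, false) = ac q0 σ0 (x, false)) ∨
      (ac q σ (x, true) = ac q0 σ0 (x, false) ∧ ac q σ (x, false) = ac q0 σ0 (x, true)) := by
  have key : ∀ i, (if ac q σ (x, true) = i then 1 else 0) +
      (if ac q σ (x, false) = i then 1 else 0) = (if ac q0 σ0 (x, true) = i then 1 else 0) +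
      (if ac q0 σ0 (x, false) = i then 1 else 0) := by
    intro i
    rw [← m7_deg_ac B hV hx hq h he i, ← m7_deg_ac B hV hx hq0 h0 he0 i]
    exact m7_deg B hx hq hq0 i
  generalize ac q σ (x, true) = a at key
  generalize ac q σ (x, false) = b at key
  generalize ac q0 σ0 (x, true) = c at key
  generalize ac q0 σ0 (x, false) = d at key
  revert a b c d
  decide

/-- the twist at a vertex -/
noncomputable def m7_tw (q0 : Fin 3 → Finset (Sym2 V)) (σ0 : Perm V) (T : Finset V)
    (q : Fin 3 → Finset (Sym2 V)) (σ : Perm V) (R : Finset V) (u : V) : Bool :=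
  if u ∈ T then false else
  if ac q0 σ0 (u, true) = ac q0 σ0 (u, false) then decide (u ∈ R)
  else decide (ac q σ (u, true) ≠ ac q0 σ0 (u, true))

/-- the classes of ports -/
noncomputable def m7_c (q0 : Fin 3 → Finset (Sym2 V)) (σ0 : Perm V) (T : Finset V)
    (q : Fin 3 → Finset (Sym2 V)) (σ : Perm V) (w : V × Bool) : Fin 3 :=
  if w.1 ∈ T then ac q σ w else ac q0 σ0 w

theorem m7_c_ta {P : Fin 3 → Set (Finset (Sym2 V))} {T : Finset V} {p p' : V → Sym2 V}
    (B : PBox P T p p') (hV : 3 ≤ Fintype.card V)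
    {q q0 : Fin 3 → Finset (Sym2 V)} (hq : ∀ i, q i ∈ P i) (hq0 : ∀ i, q0 i ∈ P i)
    {σ σ0 : Perm V} (h : Full σ) (h0 : Full σ0) (he : ed σ = un q) (he0 : ed σ0 = un q0)
    (R : Finset V) (w : V × Bool) :
    m7_c q0 σ0 T q σ (ta (m7_tw q0 σ0 T q σ R) w) = ac q σ w := by
  obtain ⟨u, b⟩ := w
  by_cases hu : u ∈ T
  · have ht : m7_tw q0 σ0 T q σ R u = false := by rw [m7_tw, if_pos hu]
    simp only [m7_c, ta, hu, if_true, ht, Bool.xor_false]
  · have hcs := m7_cases B hV hu hq hq0 h h0 he he0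
    have hc : m7_c q0 σ0 T q σ (ta (m7_tw q0 σ0 T q σ R) (u, b)) =
        ac q0 σ0 (u, xor b (m7_tw q0 σ0 T q σ R u)) := by
      simp only [m7_c, ta, hu, if_false]
    rw [hc]
    by_cases hp : ac q0 σ0 (u, true) = ac q0 σ0 (u, false)
    · have h1 : ∀ b, ac q0 σ0 (u, b) = ac q0 σ0 (u, true) := by
        intro b; cases b
        · exact hp.symm
        · rfl
      have h2 : ac q σ (u, true) = ac q0 σ0 (u, true) ∧
          ac q σ (u, false) = ac q0 σ0 (u, true) := by
        rcases hcs with ⟨a, b⟩ | ⟨a, b⟩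
        · exact ⟨a, b.trans hp.symm⟩
        · exact ⟨a.trans hp.symm, b⟩
      rw [h1]
      cases b
      · exact h2.2.symm
      · exact h2.1.symm
    · by_cases he : ac q σ (u, true) = ac q0 σ0 (u, true)
      · have h2 : ac q σ (u, false) = ac q0 σ0 (u, false) := by
          rcases hcs with ⟨a, b⟩ | ⟨a, b⟩
          · exact b
          · exact absurd (he.symm.trans a) hp
        have ht : m7_tw q0 σ0 T q σ R u = false := by simp [m7_tw, hp, he]
        rw [ht, Bool.xor_false]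
        cases b
        · exact h2.symm
        · exact he.symm
      · have h2 : ac q σ (u, true) = ac q0 σ0 (u, false) ∧
            ac q σ (u, false) = ac q0 σ0 (u, true) := by
          rcases hcs with ⟨a, b⟩ | ⟨a, b⟩
          · exact absurd a he
          · exact ⟨a, b⟩
        have ht : m7_tw q0 σ0 T q σ R u = true := by simp [m7_tw, hu, hp, he]
        rw [ht, Bool.xor_true]
        cases b
        · exact h2.2.symm
        · exact h2.1.symm

theorem m7_c_mt {P : Fin 3 → Set (Finset (Sym2 V))} {T : Finset V} {p p' : V → Sym2 V}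
    (B : PBox P T p p') (hV : 3 ≤ Fintype.card V)
    {q q0 : Fin 3 → Finset (Sym2 V)} (hq : ∀ i, q i ∈ P i) (hq0 : ∀ i, q0 i ∈ P i)
    {σ σ0 : Perm V} (h : Full σ) (h0 : Full σ0) (he : ed σ = un q) (he0 : ed σ0 = un q0)
    {Q : Finset (Sym2 V)} (hQ : Q ⊆ ed σ) (R : Finset V) :
    mt σ (m7_tw q0 σ0 T q σ R) ∈ Fam P (m7_c q0 σ0 T q σ) Q := by
  set t := m7_tw q0 σ0 T q σ R with ht
  have hedge : ∀ w, s((ta t w).1, (mt σ t (ta t w)).1) = ae σ w := by
    intro w
    rw [mt_fst]; rfl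
  have hex : ∀ e ∈ ed σ, ∃ w, s(w.1, (mt σ t w).1) = e := by
    intro e h1
    obtain ⟨u, rfl⟩ := m7_ed_mem h1
    exact ⟨ta t (u, true), hedge _⟩
  rw [mem_Fam]
  refine ⟨⟨mt_mt σ t, ?_⟩, q, hq, ?_, ?_, ?_⟩
  · intro w
    simp only [mem_univ, iff_true]
    intro e
    have e1 : (mt σ t w).1 = w.1 := by rw [e]
    obtain ⟨w', rfl⟩ : ∃ w', w = ta t w' := ⟨ta t w, (ta_ta _ _).symm⟩
    rw [mt_fst] at e1
    obtain ⟨u, b⟩ := w'
    cases b
    · have e2 : σ⁻¹ u = u := by simpa [ms, ta] using e1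
      exact h.ne hV u (Perm.eq_inv_iff_eq.1 e2.symm)
    · have e2 : σ u = u := by simpa [ms, ta] using e1
      exact h.ne hV u e2
  · intro w
    obtain ⟨w', rfl⟩ : ∃ w', w = ta t w' := ⟨ta t w, (ta_ta _ _).symm⟩
    rw [hedge, ht, m7_c_ta B hV hq hq0 h h0 he he0 R w']
    exact m7_ac_mem he w'
  · intro i e h1
    exact hex e (by rw [he, mem_un]; exact ⟨i, h1⟩)
  · intro e h1
    exact hex e (hQ h1)

theorem m7_inj {σ σ' : Perm V} (h : Full σ) {t t' : V → Bool} (v0 : V)
    (hm : mt σ t = mt σ' t') (h0 : t v0 = t' v0) : σ = σ' ∧ t = t' := by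
  have key : ∀ k : ℕ, (σ ^ k) v0 = (σ' ^ k) v0 ∧ t ((σ ^ k) v0) = t' ((σ ^ k) v0) := by
    intro k
    induction k with
    | zero => exact ⟨rfl, h0⟩
    | succ k ih =>
      obtain ⟨h1, h2⟩ := ih
      have h3 : ta t ((σ ^ k) v0, true) = ta t' ((σ ^ k) v0, true) := by
        simp only [ta, h2]
      have h4 := congrFun hm (ta t ((σ ^ k) v0, true))
      rw [MonCyc.mt, ta_ta, h3, MonCyc.mt, ta_ta] at h4
      simp only [ms, ta, if_true, Prod.mk.injEq] at h4
      rw [pow_succ', Perm.mul_apply, pow_succ', Perm.mul_apply, ← h1]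
      refine ⟨h4.1, ?_⟩
      have h5 := h4.2
      rw [← h4.1] at h5
      simpa using h5
  have hall : ∀ v, t v = t' v ∧ σ v = σ' v := by
    intro v
    obtain ⟨k, rfl⟩ := h v0 v
    refine ⟨(key k).2, ?_⟩
    have := (key (k + 1)).1
    rw [pow_succ', Perm.mul_apply, pow_succ', Perm.mul_apply, ← (key k).1] at this
    exact this
  exact ⟨Equiv.ext (fun v => (hall v).2), funext fun v => (hall v).1⟩

open Classical in
theorem inject {P : Fin 3 → Set (Finset (Sym2 V))} {T : Finset V} {p p' : V → Sym2 V}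
    (B : PBox P T p p') (hV : 3 ≤ Fintype.card V) {σ0 : Perm V} (h0 : Full σ0)
    {q0 : Fin 3 → Finset (Sym2 V)} (hq0 : ∀ i, q0 i ∈ P i) (he0 : ed σ0 = un q0)
    (Q : Finset (Sym2 V)) :
    (univ.filter (fun σ : Perm V => Full σ ∧ (∃ q : Fin 3 → Finset (Sym2 V),
        (∀ i, q i ∈ P i) ∧ ed σ = un q) ∧ Q ⊆ ed σ)).card *
      2 ^ (univ.filter (fun u => u ∉ T ∧ ac q0 σ0 (u, true) = ac q0 σ0 (u, false))).card ≤
      2 * ∑ c ∈ Fintype.piFinset (fun w : V × Bool =>
        if w.1 ∈ T then (univ : Finset (Fin 3)) else {ac q0 σ0 w}), (Fam P c Q).card := by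
  set S := univ.filter (fun σ : Perm V => Full σ ∧ (∃ q : Fin 3 → Finset (Sym2 V),
        (∀ i, q i ∈ P i) ∧ ed σ = un q) ∧ Q ⊆ ed σ) with hS
  have hex : ∀ σ : Perm V, ∃ q : Fin 3 → Finset (Sym2 V),
      σ ∈ S → (∀ i, q i ∈ P i) ∧ ed σ = un q := by
    intro σ
    by_cases h : σ ∈ S
    · have h' := h
      simp only [hS, mem_filter, mem_univ, true_and] at h'
      obtain ⟨_, ⟨q, hq⟩, _⟩ := h'
      exact ⟨q, fun _ => hq⟩
    · exact ⟨fun _ => ∅, fun h' => absurd h' h⟩
  choose qc hqc using hex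
  have hV1 : 0 < Fintype.card V := by omega
  obtain ⟨v0⟩ := Fintype.card_pos_iff.1 hV1
  set pu : Finset V := univ.filter (fun u => u ∉ T ∧ ac q0 σ0 (u, true) = ac q0 σ0 (u, false))
    with hpu
  set C := Fintype.piFinset (fun w : V × Bool =>
        if w.1 ∈ T then (univ : Finset (Fin 3)) else {ac q0 σ0 w}) with hC
  have hfull : ∀ σ ∈ S, Full σ := by
    intro σ h
    simp only [hS, mem_filter, mem_univ, true_and] at h
    exact h.1
  have hsub : ∀ σ ∈ S, Q ⊆ ed σ := by
    intro σ h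
    simp only [hS, mem_filter, mem_univ, true_and] at h
    exact h.2.2
  have hmain : (S ×ˢ pu.powerset).card ≤
      ((C.sigma (fun c => Fam P c Q)) ×ˢ (univ : Finset Bool)).card := by
    apply card_le_card_of_injOn
      (fun x => ((⟨m7_c q0 σ0 T (qc x.1) x.1, mt x.1 (m7_tw q0 σ0 T (qc x.1) x.1 x.2)⟩ :
        (_ : V × Bool → Fin 3) × (V × Bool → V × Bool)), m7_tw q0 σ0 T (qc x.1) x.1 x.2 v0))
    · rintro ⟨σ, R⟩ hx
      simp only [coe_product, Set.mem_prod, mem_coe] at hx
      simp only [mem_coe, mem_product, mem_univ, and_true, mem_sigma]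
      obtain ⟨hx1, _⟩ := hx
      refine ⟨?_, ?_⟩
      · rw [hC, Fintype.mem_piFinset]
        intro w
        by_cases hw : w.1 ∈ T
        · simp only [hw, if_true, mem_univ]
        · simp only [m7_c, hw, if_false, mem_singleton]
      · exact m7_c_mt B hV (hqc σ hx1).1 hq0 (hfull σ hx1) h0 (hqc σ hx1).2 he0 (hsub σ hx1) R
    · rintro ⟨σ, R⟩ hx ⟨σ', R'⟩ hx' e
      simp only [coe_product, Set.mem_prod, mem_coe, mem_powerset] at hx hx'
      simp only [Prod.mk.injEq, Sigma.mk.injEq, heq_eq_eq] at e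
      obtain ⟨⟨_, e1⟩, e2⟩ := e
      obtain ⟨rfl, h2⟩ := m7_inj (hfull σ hx.1) v0 e1 e2
      refine Prod.ext rfl ?_
      ext u
      by_cases hu : u ∈ pu
      · have h3 := congrFun h2 u
        have hu' : u ∉ T ∧ ac q0 σ0 (u, true) = ac q0 σ0 (u, false) := by
          simpa [hpu] using hu
        simp only [m7_tw, hu'.1, hu'.2, if_true, if_false, decide_eq_decide] at h3
        exact h3
      · exact ⟨fun h => absurd (hx.2 h) hu, fun h => absurd (hx'.2 h) hu⟩
  rw [card_product, card_product, card_powerset, card_sigma, card_univ,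
    Fintype.card_bool] at hmain
  rw [mul_comm 2]
  exact hmain

end cycles

end Pool.Agent.MonCnt
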