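/-
MP_18d1ca_lc: counting circuits; purification of a box (M4).
-/
import Pool.Agent.MonCnt.Cyc

set_option linter.all false

namespace Pool.Agent.MonCnt

open Finset

section purify

variable {V : Type*} [DecidableEq V]

theorem st_un (x : V) (q : Fin 3 → Finset (Sym2 V)) :
    st x (un q) = univ.biUnion (fun i => st x (q i)) := by
  ext e
  simp only [mem_st, mem_un, mem_biUnion, mem_univ, true_and]
  constructor
  · rintro ⟨⟨i, hi⟩, hx⟩
    exact ⟨i, hi, hx⟩
  · rintro ⟨i, hi, hx⟩
    exact ⟨⟨i, hi⟩, hx⟩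

/-- the members of two choices on a set of indices and on the complement -/
def mxq (I : Finset (Fin 3)) (q q' : Fin 3 → Finset (Sym2 V)) : Fin 3 → Finset (Sym2 V) :=
  fun l => if l ∈ I then q l else q' l

theorem st_mxq (x : V) (I : Finset (Fin 3)) (q q' : Fin 3 → Finset (Sym2 V)) :
    st x (un (mxq I q q')) = I.biUnion (fun i => st x (q i)) ∪ Iᶜ.biUnion (fun i => st x (q' i)) := by
  rw [st_un]
  ext e
  simp only [mem_biUnion, mem_univ, true_and, mem_union, mem_compl, mxq]
  constructor
  · rintro ⟨i, hi⟩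
    by_cases h : i ∈ I
    · rw [if_pos h] at hi
      exact Or.inl ⟨i, h, hi⟩
    · rw [if_neg h] at hi
      exact Or.inr ⟨i, h, hi⟩
  · rintro (⟨i, h, hi⟩ | ⟨i, h, hi⟩)
    · exact ⟨i, by rw [if_pos h]; exact hi⟩
    · exact ⟨i, by rw [if_neg h]; exact hi⟩

variable {P : Fin 3 → Set (Finset (Sym2 V))} {x : V}

/-- if all unions have two edges at `x` then a choice with intersecting stars meets all unions -/
theorem meet_of_inter (h2 : ∀ q : Fin 3 → Finset (Sym2 V), (∀ i, q i ∈ P i) → (st x (un q)).card = 2)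
    {q : Fin 3 → Finset (Sym2 V)} (hq : ∀ i, q i ∈ P i) {i j : Fin 3} (hij : i ≠ j)
    (hnd : ¬ Disjoint (st x (q i)) (st x (q j)))
    {q' : Fin 3 → Finset (Sym2 V)} (hq' : ∀ i, q' i ∈ P i) :
    ¬ Disjoint (st x (un q)) (st x (un q')) := by
  intro hdis
  apply hnd
  have hm : ∀ I : Finset (Fin 3), (I.biUnion (fun i => st x (q i))).card
      + (Iᶜ.biUnion (fun i => st x (q' i))).card = 2 := by
    intro I
    rw [← card_union_of_disjoint, ← st_mxq]
    · apply h2
      intro l
      unfold mxq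
      split_ifs
      · exact hq l
      · exact hq' l
    · refine Disjoint.mono ?_ ?_ hdis
      · rw [st_un]
        exact biUnion_subset_biUnion_of_subset_left _ (subset_univ _)
      · rw [st_un]
        exact biUnion_subset_biUnion_of_subset_left _ (subset_univ _)
  have h1 := hm {i}
  have h3 := hm {j}
  have h4 := hm {i, j}
  have h5 : (univ.biUnion (fun i => st x (q' i))).card = 2 := by
    rw [← st_un]
    exact h2 q' hq'
  have h6 : ({i} : Finset (Fin 3))ᶜ.biUnion (fun i => st x (q' i)) ∪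
      ({j} : Finset (Fin 3))ᶜ.biUnion (fun i => st x (q' i)) = univ.biUnion (fun i => st x (q' i)) := by
    rw [← union_biUnion]
    congr 1
    ext l
    simp only [mem_union, mem_compl, mem_singleton, mem_univ, iff_true]
    by_cases hl : l = i
    · right
      rw [hl]
      exact hij
    · left
      exact hl
  have h7 : ({i, j} : Finset (Fin 3))ᶜ.biUnion (fun i => st x (q' i)) ⊆
      ({i} : Finset (Fin 3))ᶜ.biUnion (fun i => st x (q' i)) ∩
      ({j} : Finset (Fin 3))ᶜ.biUnion (fun i => st x (q' i)) := by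
    intro e he
    simp only [mem_biUnion, mem_compl, mem_insert, mem_singleton, not_or, mem_inter] at he ⊢
    obtain ⟨l, ⟨h1, h2⟩, h3⟩ := he
    exact ⟨⟨l, h1, h3⟩, ⟨l, h2, h3⟩⟩
  have h8 := card_union_add_card_inter (({i} : Finset (Fin 3))ᶜ.biUnion (fun i => st x (q' i)))
    (({j} : Finset (Fin 3))ᶜ.biUnion (fun i => st x (q' i)))
  have h9 := card_le_card h7
  rw [h6, h5] at h8
  have h10 : ({i, j} : Finset (Fin 3)).biUnion (fun i => st x (q i)) = st x (q i) ∪ st x (q j) := by
    rw [biUnion_insert, singleton_biUnion]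
  rw [h10] at h4
  rw [singleton_biUnion] at h1 h3
  have h11 := card_union_add_card_inter (st x (q i)) (st x (q j))
  rw [disjoint_iff_inter_eq_empty, ← card_eq_zero]
  omega

/-- the case in which all families have a member without edges at `x` -/
theorem eq_of_empty (hst : ∀ q : Fin 3 → Finset (Sym2 V), (∀ i, q i ∈ P i) →
      (st x (un q)).card = 0 ∨ (st x (un q)).card = 2)
    {E : Fin 3 → Finset (Sym2 V)} (hE : ∀ i, E i ∈ P i) (hE0 : ∀ i, st x (E i) = ∅)
    {i j : Fin 3} (hij : i ≠ j) {F G : Finset (Sym2 V)} (hF : F ∈ P i) (hG : G ∈ P j)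
    (hF0 : (st x F).Nonempty) (hG0 : (st x G).Nonempty) : st x F = st x G := by
  have h1 : ∀ (i : Fin 3) (F : Finset (Sym2 V)), F ∈ P i → (st x F).Nonempty →
      (st x F).card = 2 := by
    intro i F hF hF0
    have h2 := hst (Function.update E i F) (by
      intro l
      by_cases hl : l = i
      · subst hl
        rw [Function.update_self]
        exact hF
      · rw [Function.update_of_ne hl]
        exact hE l)
    have h3 : st x (un (Function.update E i F)) = st x F := by
      rw [st_un]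
      ext e
      simp only [mem_biUnion, mem_univ, true_and]
      constructor
      · rintro ⟨l, hl⟩
        by_cases h : l = i
        · subst h
          rwa [Function.update_self] at hl
        · rw [Function.update_of_ne h, hE0] at hl
          exact absurd hl (notMem_empty _)
      · intro he
        exact ⟨i, by rw [Function.update_self]; exact he⟩
    rw [h3] at h2
    rcases h2 with h2 | h2
    · rw [card_eq_zero] at h2
      rw [h2] at hF0
      exact absurd hF0 not_nonempty_empty
    · exact h2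
  have hF2 := h1 i F hF hF0
  have hG2 := h1 j G hG hG0
  have h2 := hst (Function.update (Function.update E i F) j G) (by
    intro l
    by_cases hl : l = j
    · subst hl
      rw [Function.update_self]
      exact hG
    · rw [Function.update_of_ne hl]
      by_cases hl' : l = i
      · subst hl'
        rw [Function.update_self]
        exact hF
      · rw [Function.update_of_ne hl']
        exact hE l)
  have h3 : st x F ∪ st x G ⊆ st x (un (Function.update (Function.update E i F) j G)) := by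
    rw [st_un]
    intro e he
    simp only [mem_biUnion, mem_univ, true_and]
    rcases mem_union.mp he with he | he
    · exact ⟨i, by rw [Function.update_of_ne hij, Function.update_self]; exact he⟩
    · exact ⟨j, by rw [Function.update_self]; exact he⟩
  have h4 : (st x (un (Function.update (Function.update E i F) j G))).card = 2 := by
    rcases h2 with h2 | h2
    · rw [card_eq_zero] at h2
      rw [h2, subset_empty, union_eq_empty] at h3
      rw [h3.1] at hF0
      exact absurd hF0 not_nonempty_empty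
    · exact h2
  have h5 := eq_of_subset_of_card_le (subset_union_left.trans h3) (by rw [h4, hF2])
  have h6 := eq_of_subset_of_card_le (subset_union_right.trans h3) (by rw [h4, hG2])
  rw [h5, h6]

/-- the exceptional vertices -/
theorem exc_of (hst : ∀ q : Fin 3 → Finset (Sym2 V), (∀ i, q i ∈ P i) →
      (st x (un q)).card = 0 ∨ (st x (un q)).card = 2)
    (hns : ∀ i, ∃ j, j ≠ i ∧ ∃ G ∈ P j, (st x G).Nonempty)
    (hnp : ¬ ((∀ q : Fin 3 → Finset (Sym2 V), (∀ i, q i ∈ P i) → ∀ i j, i ≠ j →
      Disjoint (st x (q i)) (st x (q j))) ∧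
      ∀ q : Fin 3 → Finset (Sym2 V), (∀ i, q i ∈ P i) → (st x (un q)).card = 2)) :
    ∃ p p' : Sym2 V, x ∈ p ∧ x ∈ p' ∧ ∀ q : Fin 3 → Finset (Sym2 V), (∀ i, q i ∈ P i) →
      (st x (un q)).Nonempty → p ∈ un q ∨ p' ∈ un q := by
  by_cases hE : ∀ i, ∃ E ∈ P i, st x E = ∅
  · choose E hE hE0 using hE
    obtain ⟨a, _, F, hF, hF0⟩ := hns 0
    obtain ⟨b, hab, G, hG, hG0⟩ := hns a
    have hFG := eq_of_empty hst hE hE0 hab hG hF hG0 hF0
    obtain ⟨p, hp⟩ := hF0
    refine ⟨p, p, (mem_st.mp hp).2, (mem_st.mp hp).2, fun q hq hne => Or.inl ?_⟩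
    rw [st_un] at hne
    obtain ⟨e, he⟩ := hne
    obtain ⟨l, _, hl⟩ := mem_biUnion.mp he
    have h1 : st x (q l) = st x F := by
      by_cases hla : l = a
      · rw [← hFG]
        exact eq_of_empty hst hE hE0 (by rw [hla]; exact hab.symm) (hq l) hG ⟨e, hl⟩ hG0
      · exact eq_of_empty hst hE hE0 hla (hq l) hF ⟨e, hl⟩ ⟨p, hp⟩
    rw [← h1] at hp
    exact mem_un.mpr ⟨l, (mem_st.mp hp).1⟩
  · push Not at hE
    obtain ⟨i0, hi0⟩ := hE
    have h2 : ∀ q : Fin 3 → Finset (Sym2 V), (∀ i, q i ∈ P i) → (st x (un q)).card = 2 := by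
      intro q hq
      rcases hst q hq with h | h
      · exfalso
        have h3 := hi0 (q i0) (hq i0)
        rw [card_eq_zero, st_un] at h
        obtain ⟨e, he⟩ := h3
        have h4 : e ∈ univ.biUnion (fun i => st x (q i)) := mem_biUnion.mpr ⟨i0, mem_univ _, he⟩
        rw [h] at h4
        exact notMem_empty _ h4
      · exact h
    have h3 : ∃ q : Fin 3 → Finset (Sym2 V), (∀ i, q i ∈ P i) ∧ ∃ i j, i ≠ j ∧
        ¬ Disjoint (st x (q i)) (st x (q j)) := by
      by_contra hcon
      push Not at hcon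
      exact hnp ⟨fun q hq i j hij => hcon q hq i j hij, h2⟩
    obtain ⟨q0, hq0, i, j, hij, hnd⟩ := h3
    obtain ⟨p, p', hpp, hc⟩ := card_eq_two.mp (h2 q0 hq0)
    have hp : p ∈ st x (un q0) := by rw [hc]; exact mem_insert_self _ _
    have hp' : p' ∈ st x (un q0) := by rw [hc]; exact mem_insert_of_mem (mem_singleton_self _)
    refine ⟨p, p', (mem_st.mp hp).2, (mem_st.mp hp').2, fun q hq _ => ?_⟩
    have h4 := meet_of_inter h2 hq0 hij hnd hq
    rw [not_disjoint_iff] at h4
    obtain ⟨e, he, he'⟩ := h4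
    rw [hc, mem_insert, mem_singleton] at he
    rcases he with rfl | rfl
    · exact Or.inl (mem_st.mp he').1
    · exact Or.inr (mem_st.mp he').1

variable [Fintype V]

theorem purify_aux (P : Fin 3 → Set (Finset (Sym2 V)))
    (h : ∀ q : Fin 3 → Finset (Sym2 V), (∀ i, q i ∈ P i) → IsCyc (un q))
    (hcs : ∀ {S : Finset (Sym2 V)}, IsCyc S → ∀ x, (st x S).card = 0 ∨ (st x S).card = 2) :
    ∃ (P' : Fin 3 → Set (Finset (Sym2 V))) (T : Finset V) (p p' : V → Sym2 V), PBox P' T p p' ∧
      ∀ q : Fin 3 → Finset (Sym2 V), (∀ i, q i ∈ P i) → (∀ x, (st x (un q)).Nonempty) →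
        ∀ i, q i ∈ P' i := by
  classical
  let P' : Fin 3 → Set (Finset (Sym2 V)) := fun i =>
    {F | F ∈ P i ∧ ∀ x, (∀ j, j ≠ i → ∀ G ∈ P j, st x G = ∅) → (st x F).Nonempty}
  have hP' : ∀ q : Fin 3 → Finset (Sym2 V), (∀ i, q i ∈ P' i) → ∀ i, q i ∈ P i :=
    fun q hq i => (hq i).1
  let pu : V → Prop := fun x => (∀ q : Fin 3 → Finset (Sym2 V), (∀ i, q i ∈ P' i) → ∀ i j, i ≠ j →
      Disjoint (st x (q i)) (st x (q j))) ∧
      ∀ q : Fin 3 → Finset (Sym2 V), (∀ i, q i ∈ P' i) → (st x (un q)).card = 2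
  let T : Finset V := univ.filter (fun x => ¬ pu x)
  have hT : ∀ x, x ∉ T → pu x := by
    intro x hx
    by_contra hcon
    exact hx (mem_filter.mpr ⟨mem_univ _, hcon⟩)
  have hexc : ∀ x, ∃ p p' : Sym2 V, x ∈ T → (x ∈ p ∧ x ∈ p' ∧
      ∀ q : Fin 3 → Finset (Sym2 V), (∀ i, q i ∈ P' i) →
      (st x (un q)).Nonempty → p ∈ un q ∨ p' ∈ un q) := by
    intro x
    by_cases hx : x ∈ T
    · have hx2 : ¬ pu x := (mem_filter.mp hx).2
      have hns : ∀ i, ∃ j, j ≠ i ∧ ∃ G ∈ P j, (st x G).Nonempty := by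
        intro i
        by_contra hcon
        push Not at hcon
        apply hx2
        have hne : ∀ q : Fin 3 → Finset (Sym2 V), (∀ i, q i ∈ P' i) → (st x (q i)).Nonempty :=
          fun q hq => (hq i).2 x hcon
        constructor
        · intro q hq a b hab
          by_cases ha : a = i
          · have hb : b ≠ i := fun hb => hab (ha.trans hb.symm)
            rw [hcon b hb (q b) (hP' q hq b)]
            exact disjoint_empty_right _
          · rw [hcon a ha (q a) (hP' q hq a)]
            exact disjoint_empty_left _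
        · intro q hq
          rcases hcs (h q (hP' q hq)) x with h1 | h1
          · exfalso
            rw [card_eq_zero, st_un] at h1
            obtain ⟨e, he⟩ := hne q hq
            have h4 : e ∈ univ.biUnion (fun i => st x (q i)) :=
              mem_biUnion.mpr ⟨i, mem_univ _, he⟩
            rw [h1] at h4
            exact notMem_empty _ h4
          · exact h1
      obtain ⟨p, p', h1, h2, h3⟩ := exc_of (P := P) (x := x) (fun q hq => hcs (h q hq) x) hns (by
        rintro ⟨h4, h5⟩
        exact hx2 ⟨fun q hq => h4 q (hP' q hq), fun q hq => h5 q (hP' q hq)⟩)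
      exact ⟨p, p', fun _ => ⟨h1, h2, fun q hq => h3 q (hP' q hq)⟩⟩
    · exact ⟨s(x, x), s(x, x), fun h => absurd h hx⟩
  choose p p' hpp using hexc
  refine ⟨P', T, p, p', ⟨fun q hq => h q (hP' q hq), fun x hx => (hT x hx).1,
    fun x hx => (hT x hx).2, fun x hx => ⟨(hpp x hx).1, (hpp x hx).2.1⟩,
    fun x hx => (hpp x hx).2.2⟩, ?_⟩
  intro q hq hne i
  refine ⟨hq i, fun x hx => ?_⟩
  have h1 := hne x
  rw [st_un] at h1
  obtain ⟨e, he⟩ := h1
  obtain ⟨l, _, hl⟩ := mem_biUnion.mp he
  by_cases hli : l = i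
  · rw [← hli]
    exact ⟨e, hl⟩
  · rw [hx l hli (q l) (hq l)] at hl
    exact absurd hl (notMem_empty _)

theorem purify (P : Fin 3 → Set (Finset (Sym2 V))) (h : ∀ q : Fin 3 → Finset (Sym2 V), (∀ i, q i ∈ P i) → IsCyc (un q)) :
    ∃ (P' : Fin 3 → Set (Finset (Sym2 V))) (T : Finset V) (p p' : V → Sym2 V), PBox P' T p p' ∧
      ∀ q : Fin 3 → Finset (Sym2 V), (∀ i, q i ∈ P i) → (∀ x, (st x (un q)).Nonempty) →
        ∀ i, q i ∈ P' i :=
  purify_aux P h (fun hS x => cyc_st hS x)

end purify

end Pool.Agent.MonCnt
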