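/-
MP_18d1ca_lc: counting circuits; the number of Hamiltonian cycles in a box.
-/
import Pool.Agent.MonCnt.M4
import Pool.Agent.MonCnt.FamBound
import Pool.Agent.MonCnt.Inject

set_option linter.all false

namespace Pool.Agent.MonCnt

open Finset Equiv MonCyc

variable {V : Type*} [DecidableEq V] [Fintype V]

theorem numeric9 {n j : ℕ} (hn : 2 ^ 37 ≤ n) (hj : 2 * j ≤ n + 1) :
    4 * (n - j).factorial * 2 ^ (36 * j) ≤ 4 * n.factorial := by
  have h1 : (n - j).factorial * (n - j + 1) ^ j ≤ n.factorial := by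
    have h := Nat.factorial_mul_pow_le_factorial (m := n - j) (n := j)
    have e : n - j + j = n := by omega
    rw [e] at h
    exact h
  have h2 : 2 ^ (36 * j) ≤ (n - j + 1) ^ j := by
    rw [pow_mul]
    apply Nat.pow_le_pow_left
    norm_num at hn ⊢
    omega
  calc 4 * (n - j).factorial * 2 ^ (36 * j)
      ≤ 4 * (n - j).factorial * (n - j + 1) ^ j := Nat.mul_le_mul_left _ h2
    _ = 4 * ((n - j).factorial * (n - j + 1) ^ j) := by ring
    _ ≤ 4 * n.factorial := Nat.mul_le_mul_left _ h1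

/-- the chosen forced edges -/
def Qb (T : Finset V) (p p' : V → Sym2 V) (b : Finset V) : Finset (Sym2 V) :=
  T.image (fun x => if x ∈ b then p x else p' x)

theorem card_Qb {T : Finset V} {p p' : V → Sym2 V} (h : ∀ x ∈ T, x ∈ p x ∧ x ∈ p' x)
    (b : Finset V) : T.card ≤ 2 * (Qb T p p' b).card := by
  rw [Qb]
  apply card_le_mul_card_image
  intro e he
  have h1 : (T.filter (fun x => (if x ∈ b then p x else p' x) = e)) ⊆
      (univ : Finset V).filter (fun x => x ∈ e) := by
    intro x hx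
    rw [mem_filter] at hx ⊢
    refine ⟨mem_univ _, ?_⟩
    obtain ⟨h1, h2⟩ := hx
    have h3 := h x h1
    by_cases hb : x ∈ b
    · rw [if_pos hb] at h2; rw [← h2]; exact h3.1
    · rw [if_neg hb] at h2; rw [← h2]; exact h3.2
  refine (card_le_card h1).trans ?_
  induction e using Sym2.ind with
  | _ x y =>
    have h2 : (univ : Finset V).filter (fun z => z ∈ s(x, y)) ⊆ {x, y} := by
      intro z hz
      rw [mem_filter, Sym2.mem_iff] at hz
      rw [mem_insert, mem_singleton]
      exact hz.2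
    exact (card_le_card h2).trans card_le_two

theorem Qb_le {T : Finset V} {p p' : V → Sym2 V} (b : Finset V) :
    (Qb T p p' b).card ≤ T.card := card_image_le

theorem Qb_inc {T : Finset V} {p p' : V → Sym2 V} (h : ∀ x ∈ T, x ∈ p x ∧ x ∈ p' x)
    (b : Finset V) : ∀ e ∈ Qb T p p' b, ∃ x ∈ T, x ∈ e := by
  intro e he
  obtain ⟨x, hx, rfl⟩ := mem_image.1 he
  refine ⟨x, hx, ?_⟩
  have h3 := h x hx
  by_cases hb : x ∈ b
  · rw [if_pos hb]; exact h3.1
  · rw [if_neg hb]; exact h3.2

theorem ed_star_ne (σ : Perm V) (x : V) : (st x (ed σ)).Nonempty :=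
  ⟨s(x, σ x), mem_st.2 ⟨mem_image.2 ⟨x, mem_univ _, rfl⟩, Sym2.mem_mk_left _ _⟩⟩

theorem arith {n t j pu km G : ℕ} (hn : pu + km + t = n) (hj : t ≤ 2 * j)
    (h1 : G * 2 ^ pu * 2 ^ km ≤ 2 ^ t * (2 * (9 ^ t * (2 * (n - j).factorial * 32 ^ (2 * t) *
      4 ^ t)))) :
    G * 2 ^ n ≤ 4 * (n - j).factorial * 2 ^ (36 * j) := by
  calc G * 2 ^ n = (G * 2 ^ pu * 2 ^ km) * 2 ^ t := by rw [← hn, pow_add, pow_add]; ring
    _ ≤ (2 ^ t * (2 * (9 ^ t * (2 * (n - j).factorial * 32 ^ (2 * t) * 4 ^ t)))) * 2 ^ t :=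
        Nat.mul_le_mul_right _ h1
    _ = 4 * (n - j).factorial * 147456 ^ t := by
        have : (147456 : ℕ) ^ t = 2 ^ t * 9 ^ t * (32 ^ 2) ^ t * 4 ^ t * 2 ^ t := by
          rw [← mul_pow, ← mul_pow, ← mul_pow, ← mul_pow]; norm_num
        rw [this, pow_mul]
        ring
    _ ≤ 4 * (n - j).factorial * (2 ^ 18) ^ t := by
        apply Nat.mul_le_mul_left
        apply Nat.pow_le_pow_left
        norm_num
    _ ≤ 4 * (n - j).factorial * 2 ^ (36 * j) := by
        apply Nat.mul_le_mul_left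
        rw [← pow_mul]
        apply Nat.pow_le_pow_right (by norm_num)
        omega

open Classical in
theorem pbox_bound {P : Fin 3 → Set (Finset (Sym2 V))} {T : Finset V} {p p' : V → Sym2 V}
    (B : PBox P T p p') (hV : 3 ≤ Fintype.card V) :
    (univ.filter (fun σ : Perm V => Good P σ)).card * 2 ^ Fintype.card V ≤
      4 * (Fintype.card V - (T.card + 1) / 2).factorial * 2 ^ (36 * ((T.card + 1) / 2)) := by
  set n := Fintype.card V with hn
  set GG := univ.filter (fun σ : Perm V => Good P σ) with hGG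
  rcases GG.eq_empty_or_nonempty with he | ⟨σ0, hσ0⟩
  · rw [he, card_empty, zero_mul]; exact Nat.zero_le _
  obtain ⟨h0, q0, hq0, he0, g1, g2, g3⟩ : Good P σ0 := by simpa [hGG] using hσ0
  set pu := (univ.filter (fun u => u ∉ T ∧ ac q0 σ0 (u, true) = ac q0 σ0 (u, false))).card
    with hpu
  set km := (univ.filter (fun u => u ∉ T ∧ ac q0 σ0 (u, true) ≠ ac q0 σ0 (u, false))).card
    with hkm
  set t := T.card with ht
  have hsum : pu + km + t = n := by
    have e1 : pu + km = (univ.filter (fun u => u ∉ T)).card := by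
      rw [hpu, hkm, ← filter_filter, ← filter_filter]
      exact card_filter_add_card_filter_not _
    have e2 : (univ.filter (fun u => u ∈ T)).card + (univ.filter (fun u => u ∉ T)).card = n := by
      rw [card_filter_add_card_filter_not, card_univ]
    have e3 : (univ.filter (fun u => u ∈ T)) = T := by ext u; simp
    rw [e3] at e2
    omega
  set CC := Fintype.piFinset (fun w : V × Bool =>
        if w.1 ∈ T then (univ : Finset (Fin 3)) else {ac q0 σ0 w}) with hCC
  have hCCcard : CC.card = 9 ^ t := by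
    rw [hCC, Fintype.card_piFinset, Fintype.prod_prod_type]
    have : ∀ x : V, (∏ y : Bool, (if x ∈ T then (univ : Finset (Fin 3)) else
        {ac q0 σ0 (x, y)}).card) = if x ∈ T then 9 else 1 := by
      intro x
      rw [Fintype.prod_bool]
      by_cases hx : x ∈ T
      · simp [hx]
      · simp [hx]
    simp only [this]
    rw [prod_ite, prod_const, prod_const_one, mul_one]
    have e3 : (univ.filter (fun u => u ∈ T)) = T := by ext u; simp
    rw [e3]
  let SQ : Finset V → Finset (Perm V) := fun b =>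
    univ.filter (fun σ : Perm V => Full σ ∧ (∃ q : Fin 3 → Finset (Sym2 V),
        (∀ i, q i ∈ P i) ∧ ed σ = un q) ∧ Qb T p p' b ⊆ ed σ)
  have hcov : GG ⊆ T.powerset.biUnion SQ := by
    intro σ hσ
    obtain ⟨k0, q, hq, he, -⟩ : Good P σ := by simpa [hGG] using hσ
    rw [mem_biUnion]
    refine ⟨T.filter (fun x => p x ∈ ed σ), mem_powerset.2 (filter_subset _ _), ?_⟩
    simp only [SQ, mem_filter, mem_univ, true_and]
    refine ⟨k0, ⟨q, hq, he⟩, ?_⟩
    intro e hee
    obtain ⟨x, hx, rfl⟩ := mem_image.1 hee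
    by_cases hp : p x ∈ ed σ
    · rw [if_pos (mem_filter.2 ⟨hx, hp⟩)]; exact hp
    · have hnp : x ∉ T.filter (fun x => p x ∈ ed σ) := fun h => hp (mem_filter.1 h).2
      rw [if_neg hnp]
      have hne : (st x (un q)).Nonempty := by rw [← he]; exact ed_star_ne σ x
      rcases B.exc x hx q hq hne with h | h
      · rw [← he] at h; exact absurd h hp
      · rw [← he] at h; exact h
  set j := (t + 1) / 2 with hj
  have hfam : ∀ b, ∀ c ∈ CC, (Fam P c (Qb T p p' b)).card * 2 ^ km ≤
      2 * (n - j).factorial * 32 ^ (2 * t) * 4 ^ t := by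
    intro b c hc
    have hc' : ∀ w, w.1 ∉ T → c w = ac q0 σ0 w := by
      intro w hw
      have := (Fintype.mem_piFinset.1 hc) w
      rw [if_neg hw, mem_singleton] at this
      exact this
    have hb := fam_bound B hV h0 hq0 he0 g1 g2 g3 hc' (Qb_inc B.exc_mem b)
    have e1 : (univ.filter (fun u => u ∉ T ∧ c (u, true) ≠ c (u, false))).card = km := by
      rw [hkm]
      congr 1
      apply filter_congr
      intro u _
      constructor
      · rintro ⟨h1, h2⟩
        rw [hc' (u, true) h1, hc' (u, false) h1] at h2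
        exact ⟨h1, h2⟩
      · rintro ⟨h1, h2⟩
        rw [← hc' (u, true) h1, ← hc' (u, false) h1] at h2
        exact ⟨h1, h2⟩
    rw [e1] at hb
    refine hb.trans ?_
    have k1 := card_Qb B.exc_mem b
    have k2 : (Qb T p p' b).card ≤ T.card := Qb_le b
    apply Nat.mul_le_mul
    · apply Nat.mul_le_mul_right
      apply Nat.mul_le_mul_left
      apply Nat.factorial_le
      omega
    · exact Nat.pow_le_pow_right (by norm_num) k2
  have hSQ : ∀ b, (SQ b).card * 2 ^ pu * 2 ^ km ≤
      2 * (9 ^ t * (2 * (n - j).factorial * 32 ^ (2 * t) * 4 ^ t)) := by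
    intro b
    have hi := inject B hV h0 hq0 he0 (Qb T p p' b)
    calc (SQ b).card * 2 ^ pu * 2 ^ km
        ≤ (2 * ∑ c ∈ CC, (Fam P c (Qb T p p' b)).card) * 2 ^ km := Nat.mul_le_mul_right _ hi
      _ = 2 * ∑ c ∈ CC, (Fam P c (Qb T p p' b)).card * 2 ^ km := by rw [mul_assoc, sum_mul]
      _ ≤ 2 * ∑ c ∈ CC, (2 * (n - j).factorial * 32 ^ (2 * t) * 4 ^ t) :=
          Nat.mul_le_mul_left _ (sum_le_sum (hfam b))
      _ = 2 * (9 ^ t * (2 * (n - j).factorial * 32 ^ (2 * t) * 4 ^ t)) := by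
          rw [sum_const, hCCcard, smul_eq_mul]
  refine arith hsum (by omega) ?_
  calc GG.card * 2 ^ pu * 2 ^ km ≤ (∑ b ∈ T.powerset, (SQ b).card) * 2 ^ pu * 2 ^ km := by
        apply Nat.mul_le_mul_right
        apply Nat.mul_le_mul_right
        exact (card_le_card hcov).trans card_biUnion_le
    _ = ∑ b ∈ T.powerset, (SQ b).card * 2 ^ pu * 2 ^ km := by rw [sum_mul, sum_mul]
    _ ≤ ∑ b ∈ T.powerset, 2 * (9 ^ t * (2 * (n - j).factorial * 32 ^ (2 * t) * 4 ^ t)) :=
        sum_le_sum (fun b _ => hSQ b)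
    _ = 2 ^ t * (2 * (9 ^ t * (2 * (n - j).factorial * 32 ^ (2 * t) * 4 ^ t))) := by
        rw [sum_const, card_powerset, smul_eq_mul]

open Classical in
/-- **The bound on the Hamiltonian cycles in a box.** -/
theorem box_bound' {n : ℕ} (hn : 2 ^ 37 ≤ n) (P : Fin 3 → Set (Finset (Sym2 (Fin n))))
    (hP : ∀ q : Fin 3 → Finset (Sym2 (Fin n)), (∀ i, q i ∈ P i) → IsCyc (un q)) :
    (univ.filter (fun σ : Perm (Fin n) => Good P σ)).card * 2 ^ n ≤ 4 * n.factorial := by
  obtain ⟨P', T, p, p', B, hP'⟩ := purify P hP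
  have hn3 : 3 ≤ n := le_trans (by norm_num) hn
  have hV : 3 ≤ Fintype.card (Fin n) := by simpa using hn3
  have h1 : (univ.filter (fun σ : Perm (Fin n) => Good P σ)).card ≤
      (univ.filter (fun σ : Perm (Fin n) => Good P' σ)).card := by
    apply card_le_card
    intro σ hσ
    simp only [mem_filter, mem_univ, true_and] at hσ ⊢
    obtain ⟨h0, q, hq, he, hs⟩ := hσ
    exact ⟨h0, q, hP' q hq (fun x => by rw [← he]; exact ed_star_ne σ x), he, hs⟩
  have h2 := pbox_bound B hV
  have hT : T.card ≤ n := by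
    have := card_le_univ T
    simpa using this
  rw [Fintype.card_fin] at h2
  refine (Nat.mul_le_mul_right _ h1).trans (h2.trans ?_)
  exact numeric9 hn (by omega)

end Pool.Agent.MonCnt
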