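/-
MP_18d1ca_lc: counting circuits; the supports of the monomials.
-/
import Pool.Agent.MonCnt.Cyc

set_option linter.all false

namespace Pool.Agent.MonCnt

open Finset Equiv MonCyc

section circuits

open MvPolynomial
open scoped NNReal

/-- the adjacency vector of a graph -/
noncomputable def adj {n : ℕ} (G : SimpleGraph (Fin n)) : Sym2 (Fin n) → ℝ≥0 := by
  classical exact fun e => if e ∈ G.edgeSet then 1 else 0

open Classical in
/-- the number of cycles of `G` through `v` -/
noncomputable def cycNum {n : ℕ} (v : Fin n) (G : SimpleGraph (Fin n)) : ℕ :=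
  (univ.filter (fun S : Finset (Sym2 (Fin n)) =>
    IsCycleThrough v S ∧ (S : Set (Sym2 (Fin n))) ⊆ G.edgeSet)).card

/-- two functions with the same sums over all subsets of the good sets agree on the good sets -/
theorem moebius {E : Type*} [DecidableEq E] {f g : Finset E → ℝ≥0} {D : Finset E → Prop}
    (hD : ∀ S T : Finset E, S ⊆ T → D T → D S)
    (h : ∀ T : Finset E, D T → ∑ S ∈ T.powerset, f S = ∑ S ∈ T.powerset, g S) :
    ∀ T : Finset E, D T → f T = g T := by
  intro T
  induction T using Finset.strongInduction with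
  | H T ih =>
    intro hT
    have h1 := h T hT
    have e1 : T.powerset = insert T T.ssubsets := by
      ext S
      rw [Finset.mem_powerset, Finset.mem_insert, Finset.mem_ssubsets]
      constructor
      · intro hS
        rcases eq_or_ne S T with h | h
        · exact Or.inl h
        · exact Or.inr (Finset.ssubset_iff_subset_ne.2 ⟨hS, h⟩)
      · rintro (rfl | h)
        · exact Finset.Subset.refl _
        · exact h.1
    have e2 : T ∉ T.ssubsets := by
      rw [Finset.mem_ssubsets]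
      exact fun h => h.2 (Finset.Subset.refl T)
    rw [e1, Finset.sum_insert e2, Finset.sum_insert e2] at h1
    have e3 : ∑ S ∈ T.ssubsets, f S = ∑ S ∈ T.ssubsets, g S := by
      refine Finset.sum_congr rfl fun S hS => ?_
      rw [Finset.mem_ssubsets] at hS
      exact ih S hS (hD S T hS.1 hT)
    rw [e3] at h1
    exact add_right_cancel h1

theorem edgeSet_from {n : ℕ} {T : Finset (Sym2 (Fin n))} (hT : ∀ e ∈ T, ¬ e.IsDiag) :
    (SimpleGraph.fromEdgeSet (T : Set (Sym2 (Fin n)))).edgeSet = T := by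
  rw [SimpleGraph.edgeSet_fromEdgeSet]
  ext e
  constructor
  · exact fun h => h.1
  · exact fun h => ⟨h, hT e h⟩

theorem eval_adj {n : ℕ} (F : MvPolynomial (Sym2 (Fin n)) ℝ≥0) {T : Finset (Sym2 (Fin n))}
    (hT : ∀ e ∈ T, ¬ e.IsDiag) :
    eval (adj (SimpleGraph.fromEdgeSet (T : Set (Sym2 (Fin n))))) F =
      ∑ S ∈ T.powerset, ∑ m ∈ F.support.filter (fun m => m.support = S), coeff m F := by
  classical
  rw [eval_eq]
  have h1 : ∀ m ∈ F.support, coeff m F *
      ∏ e ∈ m.support, adj (SimpleGraph.fromEdgeSet (T : Set (Sym2 (Fin n)))) e ^ m e =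
      if m.support ⊆ T then coeff m F else 0 := by
    intro m _
    split_ifs with h
    · rw [Finset.prod_eq_one, mul_one]
      intro e he
      have : adj (SimpleGraph.fromEdgeSet (T : Set (Sym2 (Fin n)))) e = 1 := by
        unfold adj
        have hmem : e ∈ (SimpleGraph.fromEdgeSet (T : Set (Sym2 (Fin n)))).edgeSet := by
          rw [edgeSet_from hT]
          exact_mod_cast h he
        exact if_pos hmem
      rw [this, one_pow]
    · rw [Finset.not_subset] at h
      obtain ⟨e, he, heT⟩ := h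
      rw [Finset.prod_eq_zero he, mul_zero]
      have : adj (SimpleGraph.fromEdgeSet (T : Set (Sym2 (Fin n)))) e = 0 := by
        unfold adj
        have hmem : e ∉ (SimpleGraph.fromEdgeSet (T : Set (Sym2 (Fin n)))).edgeSet := by
          rw [edgeSet_from hT]
          exact_mod_cast heT
        exact if_neg hmem
      rw [this, zero_pow (Finsupp.mem_support_iff.1 he)]
  rw [Finset.sum_congr rfl h1, ← Finset.sum_filter]
  have h2 := Finset.sum_fiberwise_of_maps_to (s := F.support.filter (fun m => m.support ⊆ T))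
    (t := T.powerset) (g := fun m => m.support) (fun m hm => Finset.mem_powerset.2 (Finset.mem_filter.1 hm).2)
    (fun m => coeff m F)
  rw [← h2]
  refine Finset.sum_congr rfl fun S hS => ?_
  rw [Finset.filter_filter]
  refine Finset.sum_congr ?_ fun _ _ => rfl
  ext m
  rw [Finset.mem_filter, Finset.mem_filter]
  constructor
  · rintro ⟨a, -, b⟩
    exact ⟨a, b⟩
  · rintro ⟨a, b⟩
    exact ⟨a, by rw [b]; exact Finset.mem_powerset.1 hS, b⟩

open Classical in
theorem cycNum_eq {n : ℕ} (v : Fin n) {T : Finset (Sym2 (Fin n))} (hT : ∀ e ∈ T, ¬ e.IsDiag) :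
    (cycNum v (SimpleGraph.fromEdgeSet (T : Set (Sym2 (Fin n)))) : ℝ≥0) =
      ∑ S ∈ T.powerset, if IsCycleThrough v S then 1 else 0 := by
  unfold cycNum
  rw [Finset.sum_boole]
  congr 2
  ext S
  rw [Finset.mem_filter, Finset.mem_filter, edgeSet_from hT, Finset.mem_powerset, Finset.coe_subset]
  constructor
  · rintro ⟨-, a, b⟩
    exact ⟨b, a⟩
  · rintro ⟨a, b⟩
    exact ⟨Finset.mem_univ _, b, a⟩

theorem cyc_not_diag {n : ℕ} {v : Fin n} {S : Finset (Sym2 (Fin n))} (h : IsCycleThrough v S) :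
    ∀ e ∈ S, ¬ e.IsDiag := by
  obtain ⟨k, hk, a, ha, -, hS⟩ := h
  intro e he
  have he' : e ∈ (S : Set (Sym2 (Fin n))) := he
  rw [hS] at he'
  obtain ⟨i, rfl⟩ := he'
  intro hd
  have h1 : a i = a (finRotate k i) := Sym2.mk_isDiag_iff.1 hd
  have h2 := ha h1
  obtain ⟨m, rfl⟩ : ∃ m, k = m + 2 := ⟨k - 2, by omega⟩
  rw [finRotate_succ_apply] at h2
  have h3 : (1 : Fin (m + 2)) = 0 := by
    have := congrArg (fun x => x - i) h2
    simpa using this.symm
  exact absurd h3 (by simp)

theorem nbr_le {n : ℕ} {T : Finset (Sym2 (Fin n))} (hT : ∀ e ∈ T, ¬ e.IsDiag)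
    (h4 : ∀ x, (st x T).card ≤ 4) (x : Fin n) :
    ((SimpleGraph.fromEdgeSet (T : Set (Sym2 (Fin n)))).neighborSet x).ncard ≤ 4 := by
  refine le_trans ?_ (h4 x)
  rw [← Set.ncard_coe_finset]
  refine Set.ncard_le_ncard_of_injOn (fun y => s(x, y)) ?_ ?_ (Finset.finite_toSet _)
  · intro y hy
    have h1 : s(x, y) ∈ (SimpleGraph.fromEdgeSet (T : Set (Sym2 (Fin n)))).edgeSet := hy
    rw [edgeSet_from hT] at h1
    rw [Finset.mem_coe, mem_st]
    exact ⟨h1, Sym2.mem_mk_left x y⟩
  · intro y _ z _ h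
    exact Sym2.congr_right.1 h

theorem from_le {n : ℕ} {T : Finset (Sym2 (Fin n))} {H : SimpleGraph (Fin n)}
    (hT : (T : Set (Sym2 (Fin n))) ⊆ H.edgeSet) :
    SimpleGraph.fromEdgeSet (T : Set (Sym2 (Fin n))) ≤ H := by
  intro a b h
  rw [SimpleGraph.fromEdgeSet_adj] at h
  exact hT h.1

theorem host_not_diag {n : ℕ} {T : Finset (Sym2 (Fin n))} {H : SimpleGraph (Fin n)}
    (hT : (T : Set (Sym2 (Fin n))) ⊆ H.edgeSet) : ∀ e ∈ T, ¬ e.IsDiag :=
  fun e he => H.not_isDiag_of_mem_edgeSet (hT he)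

open Classical in
theorem coeff_sum_eq {n : ℕ} {v : Fin n} {F : MvPolynomial (Sym2 (Fin n)) ℝ≥0}
    {H : SimpleGraph (Fin n)}
    (hF : ∀ G : SimpleGraph (Fin n), G ≤ H → (∀ x, (G.neighborSet x).ncard ≤ 4) →
      eval (adj G) F = cycNum v G) {T : Finset (Sym2 (Fin n))}
    (hT : (T : Set (Sym2 (Fin n))) ⊆ H.edgeSet) (h4 : ∀ x, (st x T).card ≤ 4) :
    ∑ m ∈ F.support.filter (fun m => m.support = T), coeff m F =
      if IsCycleThrough v T then 1 else 0 := by
  refine moebius (f := fun S => ∑ m ∈ F.support.filter (fun m => m.support = S), coeff m F)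
    (g := fun S => if IsCycleThrough v S then 1 else 0)
    (D := fun T => (T : Set (Sym2 (Fin n))) ⊆ H.edgeSet ∧ ∀ x, (st x T).card ≤ 4) ?_ ?_ T
    ⟨hT, h4⟩
  · rintro S T hST ⟨h1, h2⟩
    refine ⟨fun e he => h1 (hST he), fun x => le_trans (Finset.card_le_card ?_) (h2 x)⟩
    exact Finset.filter_subset_filter _ hST
  · rintro T ⟨hT, h4⟩
    have hd := host_not_diag hT
    have := hF (SimpleGraph.fromEdgeSet (T : Set (Sym2 (Fin n)))) (from_le hT) (nbr_le hd h4)
    rw [eval_adj F hd, cycNum_eq v hd] at this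
    convert this using 2

/-- in a circuit correct on subgraphs of `H` of maximum degree at most 4 the monomials with
supports in `H` of maximum degree at most 4 are supported on cycles -/
theorem supp_cyc {n : ℕ} (v : Fin n) (F : MvPolynomial (Sym2 (Fin n)) ℝ≥0)
    {H : SimpleGraph (Fin n)}
    (hF : ∀ G : SimpleGraph (Fin n), G ≤ H → (∀ x, (G.neighborSet x).ncard ≤ 4) →
      eval (adj G) F = cycNum v G)
    (m : Sym2 (Fin n) →₀ ℕ) (hm : m ∈ F.support)
    (hd : (m.support : Set (Sym2 (Fin n))) ⊆ H.edgeSet)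
    (h4 : ∀ x, (st x m.support).card ≤ 4) : IsCycleThrough v m.support := by
  classical
  by_contra hc
  have h1 := coeff_sum_eq hF hd h4
  rw [if_neg hc, Finset.sum_eq_zero_iff] at h1
  have h2 := h1 m (Finset.mem_filter.2 ⟨hm, rfl⟩)
  exact (mem_support_iff.1 hm) h2

/-- every cycle of `H` is the support of a monomial -/
theorem cyc_supp {n : ℕ} (v : Fin n) (F : MvPolynomial (Sym2 (Fin n)) ℝ≥0)
    {H : SimpleGraph (Fin n)}
    (hF : ∀ G : SimpleGraph (Fin n), G ≤ H → (∀ x, (G.neighborSet x).ncard ≤ 4) →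
      eval (adj G) F = cycNum v G)
    (S : Finset (Sym2 (Fin n))) (hS : IsCycleThrough v S)
    (hSH : (S : Set (Sym2 (Fin n))) ⊆ H.edgeSet) : ∃ m ∈ F.support, m.support = S := by
  classical
  have h4 : ∀ x, (st x S).card ≤ 4 := by
    intro x
    obtain ⟨k, hk, a, ha, -, hr⟩ := hS
    rcases cyc_st (S := S) ⟨k, hk, a, ha, hr⟩ x with h | h <;> omega
  have h1 := coeff_sum_eq hF hSH h4
  rw [if_pos hS] at h1
  have h2 : (F.support.filter (fun m => m.support = S)).Nonempty := by
    rw [Finset.nonempty_iff_ne_empty]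
    intro h
    rw [h, Finset.sum_empty] at h1
    exact zero_ne_one h1
  obtain ⟨m, hm⟩ := h2
  exact ⟨m, (Finset.mem_filter.1 hm).1, (Finset.mem_filter.1 hm).2⟩

end circuits

end Pool.Agent.MonCnt
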