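/-
MP_18d1ca_lc: counting circuits; the descent with the sizes of supports and the lower bound.
-/
import Pool.Agent.MonCnt.Supp
import Pool.Agent.MonCnt.Cnt

set_option linter.all false

namespace Pool.Agent.MonCnt

open Finset Equiv MonCyc

section circuits

open MvPolynomial
open scoped NNReal

/-- Monotone arithmetic circuits with free nonnegative linear combinations: `MC k l` says that `l`
lists the polynomials computed at the gates, the last gate first, and `k` is the number of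
products. -/
inductive MC {τ : Type*} : ℕ → List (MvPolynomial τ ℝ≥0) → Prop
  | nil : MC 0 []
  | const (c : ℝ≥0) {k : ℕ} {l : List (MvPolynomial τ ℝ≥0)} : MC k l → MC k (C c :: l)
  | input (x : τ) {k : ℕ} {l : List (MvPolynomial τ ℝ≥0)} : MC k l → MC k (X x :: l)
  | scale (c : ℝ≥0) {k : ℕ} {f : MvPolynomial τ ℝ≥0} {l : List (MvPolynomial τ ℝ≥0)} :
      MC k l → f ∈ l → MC k ((C c * f) :: l)
  | add {k : ℕ} {f g : MvPolynomial τ ℝ≥0} {l : List (MvPolynomial τ ℝ≥0)} :
      MC k l → f ∈ l → g ∈ l → MC k ((f + g) :: l)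
  | mul {k : ℕ} {f g : MvPolynomial τ ℝ≥0} {l : List (MvPolynomial τ ℝ≥0)} :
      MC k l → f ∈ l → g ∈ l → MC (k + 1) ((f * g) :: l)

theorem mem_supp_add' {τ : Type*} (p q : τ →₀ ℕ) (e : τ) :
    e ∈ (p + q).support ↔ e ∈ p.support ∨ e ∈ q.support := by
  simp only [Finsupp.mem_support_iff, Finsupp.add_apply]
  omega

theorem supp_scale {τ : Type*} {c : ℝ≥0} {f : MvPolynomial τ ℝ≥0} {p : τ →₀ ℕ}
    (h : p ∈ (C c * f).support) : c ≠ 0 ∧ p ∈ f.support := by
  rw [mem_support_iff, coeff_C_mul] at h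
  rw [mem_support_iff]
  exact ⟨fun e => h (by rw [e, zero_mul]), fun e => h (by rw [e, mul_zero])⟩

theorem mem_supp_scale {τ : Type*} {c : ℝ≥0} (hc : c ≠ 0) {f : MvPolynomial τ ℝ≥0} {p : τ →₀ ℕ}
    (h : p ∈ f.support) : p ∈ (C c * f).support := by
  rw [mem_support_iff] at h ⊢
  rw [coeff_C_mul]
  exact mul_ne_zero hc h

/-- the conclusion of the descent, with the sizes of supports -/
def ConclS {τ : Type*} (n : ℕ) (D : List (MvPolynomial τ ℝ≥0 × MvPolynomial τ ℝ≥0))
    (F : MvPolynomial τ ℝ≥0) (h : τ →₀ ℕ) : Prop :=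
  ∃ y ∈ D, ∃ p1 ∈ y.1.support, ∃ p2 ∈ y.2.support, ∃ r, h = p1 + p2 + r ∧
    2 * p1.support.card ≤ n ∧ 2 * p2.support.card ≤ n ∧ n < 2 * (p1 + p2).support.card ∧
    ∀ p1' ∈ y.1.support, ∀ p2' ∈ y.2.support, p1' + p2' + r ∈ F.support

theorem ConclS.mono {τ : Type*} {n : ℕ} {D D' : List (MvPolynomial τ ℝ≥0 × MvPolynomial τ ℝ≥0)}
    (hD : D ⊆ D') {F : MvPolynomial τ ℝ≥0} {h : τ →₀ ℕ} (H : ConclS n D F h) :
    ConclS n D' F h := by
  obtain ⟨y, hy, H⟩ := H
  exact ⟨y, hD hy, H⟩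

theorem descentS {τ : Type*} {n : ℕ} (hn : 2 ≤ n) {k : ℕ} {l : List (MvPolynomial τ ℝ≥0)}
    (hl : MC k l) :
    ∃ D : List (MvPolynomial τ ℝ≥0 × MvPolynomial τ ℝ≥0), D.length ≤ k ∧
      ∀ f ∈ l, ∀ (F : MvPolynomial τ ℝ≥0) (p r : τ →₀ ℕ), p ∈ f.support →
        (∀ p' ∈ f.support, p' + r ∈ F.support) → n < 2 * p.support.card →
        ConclS n D F (p + r) := by
  classical
  induction hl with
  | nil => exact ⟨[], le_refl _, fun f hf => absurd hf List.not_mem_nil⟩
  | @const c k l hl ih =>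
    obtain ⟨D, hD, H⟩ := ih
    refine ⟨D, hD, ?_⟩
    intro f hf F p r hp hpr hdeg
    rcases List.mem_cons.1 hf with rfl | hf
    · exfalso
      rw [mem_support_iff, coeff_C] at hp
      by_cases h0 : 0 = p
      · rw [← h0] at hdeg
        simp at hdeg
      · rw [if_neg h0] at hp; exact hp rfl
    · exact H f hf F p r hp hpr hdeg
  | @input x k l hl ih =>
    obtain ⟨D, hD, H⟩ := ih
    refine ⟨D, hD, ?_⟩
    intro f hf F p r hp hpr hdeg
    rcases List.mem_cons.1 hf with rfl | hf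
    · exfalso
      rw [mem_support_iff, coeff_X'] at hp
      by_cases h0 : Finsupp.single x 1 = p
      · rw [← h0, Finsupp.support_single_ne_zero x one_ne_zero, card_singleton] at hdeg
        omega
      · rw [if_neg h0] at hp; exact hp rfl
    · exact H f hf F p r hp hpr hdeg
  | @scale c k f l hl hf ih =>
    obtain ⟨D, hD, H⟩ := ih
    refine ⟨D, hD, ?_⟩
    intro g hg F p r hp hpr hdeg
    rcases List.mem_cons.1 hg with rfl | hg
    · obtain ⟨hc, hp'⟩ := supp_scale hp
      exact H f hf F p r hp' (fun p' hp' => hpr p' (mem_supp_scale hc hp')) hdeg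
    · exact H g hg F p r hp hpr hdeg
  | @add k f g l hl hf hg ih =>
    obtain ⟨D, hD, H⟩ := ih
    refine ⟨D, hD, ?_⟩
    intro h hh F p r hp hpr hdeg
    rcases List.mem_cons.1 hh with rfl | hh
    · rcases supp_add hp with hp | hp
      · exact H f hf F p r hp (fun p' hp' => hpr p' (supp_add_left hp')) hdeg
      · exact H g hg F p r hp (fun p' hp' => hpr p' (supp_add_right hp')) hdeg
    · exact H h hh F p r hp hpr hdeg
  | @mul k f g l hl hf hg ih =>
    obtain ⟨D, hD, H⟩ := ih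
    refine ⟨(f, g) :: D, Nat.succ_le_succ hD, ?_⟩
    intro h hh F p r hp hpr hdeg
    rcases List.mem_cons.1 hh with rfl | hh
    · obtain ⟨p1, h1, p2, h2, rfl⟩ := supp_mul hp
      by_cases c1 : n < 2 * p1.support.card
      · have := H f hf F p1 (p2 + r) h1 (fun p' hp' => by
          rw [← add_assoc]; exact hpr _ (mem_supp_mul hp' h2)) c1
        rw [add_assoc]
        exact this.mono (List.subset_cons_self _ _)
      · by_cases c2 : n < 2 * p2.support.card
        · have := H g hg F p2 (p1 + r) h2 (fun p' hp' => by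
            rw [← add_assoc, add_comm p' p1]; exact hpr _ (mem_supp_mul h1 hp')) c2
          rw [add_comm p1 p2, add_assoc]
          exact this.mono (List.subset_cons_self _ _)
        · exact ⟨(f, g), List.mem_cons_self, p1, h1, p2, h2, r, rfl, not_lt.1 c1, not_lt.1 c2,
            hdeg, fun p1' h1' p2' h2' => hpr _ (mem_supp_mul h1' h2')⟩
    · exact (H h hh F p r hp hpr hdeg).mono (List.subset_cons_self _ _)

/-- the box of a product gate, inside the host graph `H` -/
def Pbx {n : ℕ} (H : SimpleGraph (Fin n)) (F : MvPolynomial (Sym2 (Fin n)) ℝ≥0)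
    (y : MvPolynomial (Sym2 (Fin n)) ℝ≥0 × MvPolynomial (Sym2 (Fin n)) ℝ≥0) :
    Fin 3 → Set (Finset (Sym2 (Fin n))) :=
  ![{S | ∃ p ∈ y.1.support, (p.support : Set (Sym2 (Fin n))) ⊆ H.edgeSet ∧
      (∀ x, (st x p.support).card ≤ 2) ∧ p.support = S},
    {S | ∃ p ∈ y.2.support, (p.support : Set (Sym2 (Fin n))) ⊆ H.edgeSet ∧
      (∀ x, (st x p.support).card ≤ 2) ∧ p.support = S},
    {S | ∃ r : Sym2 (Fin n) →₀ ℕ, (r.support : Set (Sym2 (Fin n))) ⊆ H.edgeSet ∧
      (∀ x, (st x r.support).card ≤ 2) ∧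
      (∀ p1 ∈ y.1.support, ∀ p2 ∈ y.2.support, p1 + p2 + r ∈ F.support) ∧ r.support = S}]

/-- the descent with the sizes of supports -/
theorem descent' {n : ℕ} (hn : 3 ≤ n) {k : ℕ} {l : List (MvPolynomial (Sym2 (Fin n)) ℝ≥0)}
    (hl : MC k l) (H : SimpleGraph (Fin n)) :
    ∃ D : List (MvPolynomial (Sym2 (Fin n)) ℝ≥0 × MvPolynomial (Sym2 (Fin n)) ℝ≥0),
      D.length ≤ k ∧ ∀ F ∈ l, ∀ σ : Perm (Fin n), Full σ →
        (ed σ : Set (Sym2 (Fin n))) ⊆ H.edgeSet →
        (∃ m ∈ F.support, m.support = ed σ) → ∃ y ∈ D, Good (Pbx H F y) σ := by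
  classical
  obtain ⟨D, hD, HD⟩ := descentS (n := n) (by omega) hl
  have hV : 3 ≤ Fintype.card (Fin n) := by simpa using hn
  refine ⟨D, hD, ?_⟩
  rintro F hF σ hσ hσH ⟨m, hm, hms⟩
  have hc : n < 2 * m.support.card := by
    rw [hms, ed_card hσ hV, Fintype.card_fin]
    omega
  obtain ⟨y, hy, p1, h1, p2, h2, r, hmr, d1, d2, d3, hall⟩ :=
    HD F hF F m 0 hm (fun p' hp' => by simpa using hp') hc
  rw [add_zero] at hmr
  have hsub : ∀ e, e ∈ ed σ ↔ (e ∈ p1.support ∨ e ∈ p2.support) ∨ e ∈ r.support := by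
    intro e
    rw [← hms, hmr, mem_supp_add', mem_supp_add']
  have hst : ∀ S : Finset (Sym2 (Fin n)), S ⊆ ed σ → ∀ x, (st x S).card ≤ 2 := by
    intro S hS x
    have e1 : st x S ⊆ st x (ed σ) := filter_subset_filter _ hS
    refine (card_le_card e1).trans ?_
    rw [(ed_st hσ hV x).1]
    exact card_le_two
  have s1 : p1.support ⊆ ed σ := fun e he => (hsub e).2 (Or.inl (Or.inl he))
  have s2 : p2.support ⊆ ed σ := fun e he => (hsub e).2 (Or.inl (Or.inr he))
  have s3 : r.support ⊆ ed σ := fun e he => (hsub e).2 (Or.inr he)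
  refine ⟨y, hy, hσ, ![p1.support, p2.support, r.support], ?_, ?_, ?_, ?_, ?_⟩
  · intro i
    fin_cases i
    · exact ⟨p1, h1, fun e he => hσH (s1 he), hst _ s1, rfl⟩
    · exact ⟨p2, h2, fun e he => hσH (s2 he), hst _ s2, rfl⟩
    · exact ⟨r, fun e he => hσH (s3 he), hst _ s3, hall, rfl⟩
  · ext e
    rw [hsub, mem_un]
    constructor
    · rintro ((h | h) | h)
      · exact ⟨0, h⟩
      · exact ⟨1, h⟩
      · exact ⟨2, h⟩
    · rintro ⟨i, hi⟩
      fin_cases i
      · exact Or.inl (Or.inl hi)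
      · exact Or.inl (Or.inr hi)
      · exact Or.inr hi
  · rw [Fintype.card_fin]; exact d1
  · rw [Fintype.card_fin]; exact d2
  · rw [Fintype.card_fin]
    have : ((![p1.support, p2.support, r.support] : Fin 3 → Finset (Sym2 (Fin n))) 0 ∪
        (![p1.support, p2.support, r.support] : Fin 3 → Finset (Sym2 (Fin n))) 1) =
        (p1 + p2).support := by
      ext e
      rw [mem_supp_add', mem_union]
      rfl
    rw [this]
    exact d3

/-- the members of small degree of the box of a product gate are cycles -/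
theorem Pbx_cyc {n : ℕ} (v : Fin n) (H : SimpleGraph (Fin n))
    (F : MvPolynomial (Sym2 (Fin n)) ℝ≥0)
    (hF : ∀ G : SimpleGraph (Fin n), G ≤ H → (∀ x, (G.neighborSet x).ncard ≤ 4) →
      eval (adj G) F = cycNum v G)
    (y : MvPolynomial (Sym2 (Fin n)) ℝ≥0 × MvPolynomial (Sym2 (Fin n)) ℝ≥0)
    (q : Fin 3 → Finset (Sym2 (Fin n))) (hq : ∀ i, q i ∈ Pbx H F y i)
    (h4 : ∀ x, (st x (un q)).card ≤ 4) : IsCyc (un q) := by
  obtain ⟨p1, h1, h1d, h1s, h1q⟩ := hq 0
  obtain ⟨p2, h2, h2d, h2s, h2q⟩ := hq 1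
  obtain ⟨r, hrd, hrs, hrF, hrq⟩ := hq 2
  have hun : (p1 + p2 + r).support = un q := by
    ext e
    rw [mem_supp_add', mem_supp_add', mem_un]
    constructor
    · rintro ((h | h) | h)
      · exact ⟨0, h1q ▸ h⟩
      · exact ⟨1, h2q ▸ h⟩
      · exact ⟨2, hrq ▸ h⟩
    · rintro ⟨i, hi⟩
      fin_cases i
      · exact Or.inl (Or.inl (h1q.symm ▸ hi))
      · exact Or.inl (Or.inr (h2q.symm ▸ hi))
      · exact Or.inr (hrq.symm ▸ hi)
  have hd : ((p1 + p2 + r).support : Set (Sym2 (Fin n))) ⊆ H.edgeSet := by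
    intro e he
    rw [mem_coe, mem_supp_add', mem_supp_add'] at he
    rcases he with (h | h) | h
    · exact h1d h
    · exact h2d h
    · exact hrd h
  obtain ⟨k, hk, a, ha, -, hS⟩ := supp_cyc v F hF _ (hrF p1 h1 p2 h2) hd
    (by rw [hun]; exact h4)
  rw [hun] at hS
  exact ⟨k, hk, a, ha, hS⟩

theorem Pbx_star {n : ℕ} {H : SimpleGraph (Fin n)} {F : MvPolynomial (Sym2 (Fin n)) ℝ≥0}
    {y : MvPolynomial (Sym2 (Fin n)) ℝ≥0 × MvPolynomial (Sym2 (Fin n)) ℝ≥0} {i : Fin 3}
    {S : Finset (Sym2 (Fin n))} (hS : S ∈ Pbx H F y i) (x : Fin n) : (st x S).card ≤ 2 := by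
  fin_cases i
  · obtain ⟨p, -, -, h, rfl⟩ := hS
    exact h x
  · obtain ⟨p, -, -, h, rfl⟩ := hS
    exact h x
  · obtain ⟨p, -, h, -, rfl⟩ := hS
    exact h x

/-- changing one part of a cycle of the box gives a cycle -/
theorem Pbx_upd {n : ℕ} (v : Fin n) (H : SimpleGraph (Fin n))
    (F : MvPolynomial (Sym2 (Fin n)) ℝ≥0)
    (hF : ∀ G : SimpleGraph (Fin n), G ≤ H → (∀ x, (G.neighborSet x).ncard ≤ 4) →
      eval (adj G) F = cycNum v G)
    (y : MvPolynomial (Sym2 (Fin n)) ℝ≥0 × MvPolynomial (Sym2 (Fin n)) ℝ≥0)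
    (q : Fin 3 → Finset (Sym2 (Fin n))) (hq : ∀ i, q i ∈ Pbx H F y i) (hc : IsCyc (un q))
    (i : Fin 3) (S : Finset (Sym2 (Fin n))) (hS : S ∈ Pbx H F y i) :
    (∀ j, Function.update q i S j ∈ Pbx H F y j) ∧ IsCyc (un (Function.update q i S)) := by
  have h1 : ∀ j, Function.update q i S j ∈ Pbx H F y j := by
    intro j
    by_cases hj : j = i
    · subst hj; rw [Function.update_self]; exact hS
    · rw [Function.update_of_ne hj]; exact hq j
  refine ⟨h1, Pbx_cyc v H F hF y _ h1 ?_⟩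
  intro x
  have h2 : st x (un (Function.update q i S)) ⊆ st x (un q) ∪ st x S := by
    intro e he
    rw [mem_st, mem_un] at he
    obtain ⟨⟨j, hj⟩, hx⟩ := he
    rw [mem_union, mem_st, mem_st, mem_un]
    by_cases hji : j = i
    · subst hji
      rw [Function.update_self] at hj
      exact Or.inr ⟨hj, hx⟩
    · rw [Function.update_of_ne hji] at hj
      exact Or.inl ⟨⟨j, hj⟩, hx⟩
  have h3 := card_le_card h2
  have h4 := card_union_le (st x (un q)) (st x S)
  have h5 := Pbx_star hS x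
  rcases cyc_st hc x with h6 | h6 <;> omega

/-- if one member of the box is a cycle then all are -/
theorem Pbx_all {n : ℕ} (v : Fin n) (H : SimpleGraph (Fin n))
    (F : MvPolynomial (Sym2 (Fin n)) ℝ≥0)
    (hF : ∀ G : SimpleGraph (Fin n), G ≤ H → (∀ x, (G.neighborSet x).ncard ≤ 4) →
      eval (adj G) F = cycNum v G)
    (y : MvPolynomial (Sym2 (Fin n)) ℝ≥0 × MvPolynomial (Sym2 (Fin n)) ℝ≥0)
    (q0 : Fin 3 → Finset (Sym2 (Fin n))) (hq0 : ∀ i, q0 i ∈ Pbx H F y i) (hc0 : IsCyc (un q0))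
    (q : Fin 3 → Finset (Sym2 (Fin n))) (hq : ∀ i, q i ∈ Pbx H F y i) : IsCyc (un q) := by
  obtain ⟨a1, a2⟩ := Pbx_upd v H F hF y q0 hq0 hc0 0 (q 0) (hq 0)
  obtain ⟨b1, b2⟩ := Pbx_upd v H F hF y _ a1 a2 1 (q 1) (hq 1)
  obtain ⟨c1, c2⟩ := Pbx_upd v H F hF y _ b1 b2 2 (q 2) (hq 2)
  have e : Function.update (Function.update (Function.update q0 0 (q 0)) 1 (q 1)) 2 (q 2) = q := by
    funext i
    fin_cases i
    · simp [Function.update_of_ne]
    · simp [Function.update_of_ne]
    · simp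
  rw [e] at c2
  exact c2

/-- a Hamiltonian cycle is a cycle through every vertex -/
theorem ed_sg_cycle {n : ℕ} (hn : 3 ≤ n) (v : Fin n) (t : Perm (Fin n)) :
    IsCycleThrough v (ed (sg t)) := by
  refine ⟨n, hn, t, t.injective, ⟨t⁻¹ v, ap_inv t v⟩, ?_⟩
  rw [← range_sg]
  ext e
  simp [ed]

/-- the edge set of a Hamiltonian cycle -/
def IsHam {n : ℕ} (S : Finset (Sym2 (Fin n))) : Prop :=
  ∃ a : Fin n → Fin n, Function.Injective a ∧
    (S : Set (Sym2 (Fin n))) = Set.range (fun i => s(a i, a (finRotate n i)))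

theorem ham_sg {n : ℕ} {S : Finset (Sym2 (Fin n))} (h : IsHam S) :
    ∃ t : Perm (Fin n), ed (sg t) = S := by
  obtain ⟨a, ha, hS⟩ := h
  let t : Perm (Fin n) := Equiv.ofBijective a (Finite.injective_iff_bijective.1 ha)
  refine ⟨t, ?_⟩
  rw [← coe_inj, hS]
  have h1 : (ed (sg t) : Set (Sym2 (Fin n))) = Set.range (fun u => s(u, sg t u)) := by
    simp [ed]
  rw [h1, range_sg]
  rfl

open Classical in
/-- the number of Hamiltonian cycles of `H` -/
noncomputable def hamNum {n : ℕ} (H : SimpleGraph (Fin n)) : ℕ :=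
  (univ.filter (fun S : Finset (Sym2 (Fin n)) =>
    IsHam S ∧ (S : Set (Sym2 (Fin n))) ⊆ H.edgeSet)).card

theorem lower_host {n : ℕ} (hn37 : 2 ^ 37 ≤ n) (v : Fin n) (H : SimpleGraph (Fin n)) {k : ℕ}
    {l : List (MvPolynomial (Sym2 (Fin n)) ℝ≥0)} {F : MvPolynomial (Sym2 (Fin n)) ℝ≥0}
    (hl : MC k l) (hFl : F ∈ l)
    (hF : ∀ G : SimpleGraph (Fin n), G ≤ H → (∀ x, (G.neighborSet x).ncard ≤ 4) →
      eval (adj G) F = cycNum v G) :
    hamNum H * 2 ^ n ≤ 4 * n.factorial * k := by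
  classical
  have hn : 3 ≤ n := le_trans (by norm_num) hn37
  obtain ⟨D, hD, hdesc⟩ := descent' hn hl H
  let Sb : (MvPolynomial (Sym2 (Fin n)) ℝ≥0 × MvPolynomial (Sym2 (Fin n)) ℝ≥0) →
      Finset (Perm (Fin n)) := fun y => univ.filter (fun σ => Good (Pbx H F y) σ)
  have hSb : ∀ y, (Sb y).card * 2 ^ n ≤ 4 * n.factorial := by
    intro y
    rcases (Sb y).eq_empty_or_nonempty with he | ⟨σ0, hσ0⟩
    · rw [he, card_empty, zero_mul]; exact Nat.zero_le _
    obtain ⟨g0, q0, hq0, he0, -⟩ : Good (Pbx H F y) σ0 := by simpa [Sb] using hσ0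
    have hV : 3 ≤ Fintype.card (Fin n) := by simpa using hn
    have hc0 : IsCyc (un q0) := by
      refine Pbx_cyc v H F hF y q0 hq0 ?_
      intro x
      rw [← he0, (ed_st g0 hV x).1]
      exact card_le_two.trans (by norm_num)
    have h := box_bound' hn37 (Pbx H F y) (fun q hq => Pbx_all v H F hF y q0 hq0 hc0 q hq)
    convert h using 3
  have hcov : (univ.filter (fun S : Finset (Sym2 (Fin n)) =>
      IsHam S ∧ (S : Set (Sym2 (Fin n))) ⊆ H.edgeSet)) ⊆
      (D.toFinset.biUnion Sb).image ed := by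
    intro S hS
    simp only [mem_filter, mem_univ, true_and] at hS
    obtain ⟨t, ht⟩ := ham_sg hS.1
    rw [← ht] at hS ⊢
    obtain ⟨y, hy, hG⟩ := hdesc F hFl (sg t) (sg_full t) hS.2
      (cyc_supp v F hF (ed (sg t)) (ed_sg_cycle hn v t) hS.2)
    rw [mem_image]
    refine ⟨sg t, ?_, rfl⟩
    rw [mem_biUnion]
    refine ⟨y, List.mem_toFinset.2 hy, ?_⟩
    simp only [Sb, mem_filter, mem_univ, true_and]
    exact hG
  calc hamNum H * 2 ^ n ≤ (D.toFinset.biUnion Sb).card * 2 ^ n :=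
        Nat.mul_le_mul_right _ ((card_le_card hcov).trans card_image_le)
    _ ≤ (∑ y ∈ D.toFinset, (Sb y).card) * 2 ^ n :=
        Nat.mul_le_mul_right _ card_biUnion_le
    _ = ∑ y ∈ D.toFinset, (Sb y).card * 2 ^ n := sum_mul _ _ _
    _ ≤ ∑ y ∈ D.toFinset, 4 * n.factorial := sum_le_sum fun y _ => hSb y
    _ = D.toFinset.card * (4 * n.factorial) := by rw [sum_const, smul_eq_mul]
    _ ≤ k * (4 * n.factorial) :=
        Nat.mul_le_mul_right _ ((List.toFinset_card_le D).trans hD)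
    _ = 4 * n.factorial * k := by ring

/-- in the complete graph -/
theorem hamNum_top {n : ℕ} (hn : 3 ≤ n) : n.factorial ≤ hamNum (⊤ : SimpleGraph (Fin n)) *
    (2 * n) := by
  classical
  have hn0 : 0 < n := by omega
  have hV : 3 ≤ Fintype.card (Fin n) := by simpa using hn
  rw [hamNum]
  set HS := (univ.filter (fun S : Finset (Sym2 (Fin n)) =>
    IsHam S ∧ (S : Set (Sym2 (Fin n))) ⊆ (⊤ : SimpleGraph (Fin n)).edgeSet)) with hHS
  have h1 : (univ : Finset (Perm (Fin n))).card ≤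
      (HS ×ˢ ((univ : Finset (Fin n)) ×ˢ (univ : Finset Bool))).card := by
    apply card_le_card_of_injOn (fun t => (ed (sg t), t ⟨0, hn0⟩,
      decide ((sg t) (t ⟨0, hn0⟩) < (sg t)⁻¹ (t ⟨0, hn0⟩))))
    · intro t _
      simp only [coe_product, Set.mem_prod, mem_coe, mem_univ, and_true]
      rw [hHS, mem_filter]
      refine ⟨mem_univ _, ⟨t, t.injective, ?_⟩, ?_⟩
      · rw [← range_sg]
        ext e
        simp [ed]
      · intro e he
        obtain ⟨u, -, rfl⟩ := mem_image.1 (mem_coe.1 he)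
        rw [SimpleGraph.mem_edgeSet, SimpleGraph.top_adj]
        exact ((sg_full t).ne hV u).symm
    · intro t _ t' _ e
      simp only [Prod.mk.injEq, decide_eq_decide] at e
      obtain ⟨e1, e2, e3⟩ := e
      -- the two orientations
      set x := t ⟨0, hn0⟩ with hx
      have key : ∀ (σ τ : Perm (Fin n)), Full σ → Full τ → ed σ = ed τ → σ x = τ x → σ = τ := by
        intro σ τ hσ hτ he hxx
        have step : ∀ u, σ u = τ u → σ (σ u) = τ (τ u) := by
          intro u hu
          have h2 : s(σ u, σ (σ u)) ∈ ed τ := by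
            rw [← he]; exact mem_image.2 ⟨σ u, mem_univ _, rfl⟩
          obtain ⟨w, -, hw⟩ := mem_image.1 h2
          rw [Sym2.eq_iff] at hw
          rcases hw with ⟨w1, w2⟩ | ⟨w1, w2⟩
          · rw [← w2, w1, hu]
          · exfalso
            rw [hu] at w2
            have h3 := τ.injective w2
            apply hσ.ne2 hV u
            rw [← w1, h3]
        have hk : ∀ k : ℕ, (σ ^ k) x = (τ ^ k) x ∧ σ ((σ ^ k) x) = τ ((σ ^ k) x) := by
          intro k
          induction k with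
          | zero => exact ⟨rfl, hxx⟩
          | succ k ih =>
            obtain ⟨h1, h2⟩ := ih
            rw [pow_succ', Perm.mul_apply, pow_succ', Perm.mul_apply, ← h1]
            exact ⟨h2, by rw [step _ h2, h2]⟩
        apply Equiv.ext
        intro u
        obtain ⟨k, rfl⟩ := hσ x u
        exact (hk k).2
      have hst : st x (ed (sg t)) = st x (ed (sg t')) := by rw [e1]
      have a1 := ed_st (sg_full t) hV x
      have a2 := ed_st (sg_full t') hV x
      have hinv : ∀ σ : Perm (Fin n), Full σ → σ x ≠ σ⁻¹ x := by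
        intro σ hσ h
        apply hσ.ne2 hV (σ⁻¹ x)
        rw [ap_inv]; exact h
      have hcase : sg t x = sg t' x := by
        have m1 : ae (sg t) (x, true) ∈ st x (ed (sg t')) := by
          rw [← hst, a1.1]; exact mem_insert_self _ _
        have m2 : ae (sg t) (x, false) ∈ st x (ed (sg t')) := by
          rw [← hst, a1.1]; exact mem_insert_of_mem (mem_singleton_self _)
        rw [a2.1, mem_insert, mem_singleton, ae_true, ae_true, ae_false] at m1
        rw [a2.1, mem_insert, mem_singleton, ae_false, ae_true, ae_false] at m2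
        rcases m1 with m1 | m1
        · exact Sym2.congr_right.1 m1
        · rcases m2 with m2 | m2
          · have b1 : sg t x = (sg t')⁻¹ x := Sym2.congr_right.1 m1
            have b2 : (sg t)⁻¹ x = sg t' x := Sym2.congr_right.1 m2
            rw [← e2, b1, b2] at e3
            exfalso
            have b3 := hinv (sg t') (sg_full t')
            rcases lt_trichotomy ((sg t') x) ((sg t')⁻¹ x) with c | c | c
            · have := e3.2 c
              exact absurd this (not_lt.2 c.le)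
            · exact b3 c
            · have := e3.1 c
              exact absurd this (not_lt.2 c.le)
          · have b1 : sg t x = (sg t')⁻¹ x := Sym2.congr_right.1 m1
            have b2 : (sg t)⁻¹ x = (sg t')⁻¹ x := Sym2.congr_right.1 m2
            exact absurd (b1.trans b2.symm) (hinv (sg t) (sg_full t))
      have hs := key (sg t) (sg t') (sg_full t) (sg_full t') e1 hcase
      exact sg_inj hn0 hs e2
  rw [card_product, card_product, card_univ, card_univ, card_univ, Fintype.card_perm,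
    Fintype.card_fin, Fintype.card_bool] at h1
  rw [mul_comm n 2] at h1
  exact h1

end circuits

end Pool.Agent.MonCnt
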